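import Mathlib

/-!
# Modules with a semilinear endomorphism, and traces
-/

namespace Pool.Agent.Q135.TR

open Function
open scoped Pointwise

/-- Additivity of the trace. -/
theorem trace_exact {K A B C : Type} [Field K] [AddCommGroup A] [Module K A] [AddCommGroup B]
    [Module K B] [AddCommGroup C] [Module K C] [FiniteDimensional K A] [FiniteDimensional K B]
    [FiniteDimensional K C] (φ : A →ₗ[K] B) (ψ : B →ₗ[K] C) (hφ : Injective φ)
    (hψ : Surjective ψ) (hex : Exact φ ψ) (SA : A →ₗ[K] A) (SB : B →ₗ[K] B) (SC : C →ₗ[K] C)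
    (h1 : ∀ a, φ (SA a) = SB (φ a)) (h2 : ∀ b, ψ (SB b) = SC (ψ b)) :
    LinearMap.trace K B SB = LinearMap.trace K A SA + LinearMap.trace K C SC := by
  obtain ⟨j, hj⟩ := LinearMap.exists_rightInverse_of_surjective ψ (LinearMap.range_eq_top.2 hψ)
  have hjx : ∀ x, ψ (j x) = x := fun x => LinearMap.congr_fun hj x
  have hmem : ∀ x, ∃ a, φ a = x - j (ψ x) := by
    intro x
    apply (hex _).1
    rw [map_sub, hjx, sub_self]
  choose p hp using hmem
  let π : B →ₗ[K] A :=
    { toFun := p
      map_add' := by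
        intro x y
        apply hφ
        rw [hp, map_add, map_add, map_add, hp, hp]
        abel
      map_smul' := by
        intro c x
        apply hφ
        rw [hp, map_smul, map_smul, RingHom.id_apply, map_smul, hp, smul_sub] }
  have hπ : ∀ x, φ (π x) = x - j (ψ x) := hp
  have hπφ : ∀ a, π (φ a) = a := by
    intro a
    apply hφ
    rw [hπ, hex.apply_apply_eq_zero, map_zero, sub_zero]
  have hsplit : SB = (SB ∘ₗ φ) ∘ₗ π + (SB ∘ₗ j) ∘ₗ ψ := by
    ext x
    simp only [LinearMap.add_apply, LinearMap.comp_apply]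
    rw [hπ, map_sub]
    abel
  have e1 : π ∘ₗ (SB ∘ₗ φ) = SA := by
    ext x
    rw [LinearMap.comp_apply, LinearMap.comp_apply, ← h1, hπφ]
  have e2 : ψ ∘ₗ (SB ∘ₗ j) = SC := by
    ext x
    rw [LinearMap.comp_apply, LinearMap.comp_apply, h2, hjx]
  conv_lhs => rw [hsplit]
  rw [map_add, LinearMap.trace_comp_comm', e1, LinearMap.trace_comp_comm', e2]

variable {K : Type} [Field K] {R : Type} [CommRing R] [Algebra K R] (σ : R →ₐ[K] R)

/-- A module with a semilinear endomorphism. -/
structure Ob where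
  M : Type
  [ag : AddCommGroup M]
  [mR : Module R M]
  [mK : Module K M]
  [st : IsScalarTower K R M]
  T : M →ₛₗ[(σ : R →+* R)] M

attribute [instance] Ob.ag Ob.mR Ob.mK Ob.st

variable {σ}

namespace Ob

/-- the underlying `K`-linear endomorphism -/
def S (X : Ob σ) : X.M →ₗ[K] X.M where
  toFun := X.T
  map_add' := map_add X.T
  map_smul' := by
    intro c x
    rw [RingHom.id_apply, ← algebraMap_smul R c x, map_smulₛₗ, ← algebraMap_smul R c (X.T x)]
    congr 1
    exact σ.commutes c

lemma S_apply (X : Ob σ) (x : X.M) : X.S x = X.T x := rfl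

/-- the trace -/
noncomputable def tr (X : Ob σ) : K := LinearMap.trace K X.M X.S

end Ob

/-- homomorphisms -/
structure Hm (X Y : Ob σ) where
  φ : X.M →ₗ[R] Y.M
  comm : ∀ x, φ (X.T x) = Y.T (φ x)

theorem tr_exact {A B C : Ob σ} (φ : Hm A B) (ψ : Hm B C) (hφ : Injective φ.φ)
    (hψ : Surjective ψ.φ) (hex : Exact φ.φ ψ.φ) (hfin : Module.Finite K B.M) :
    B.tr = A.tr + C.tr := by
  have hA : Module.Finite K A.M := Module.Finite.of_injective (φ.φ.restrictScalars K) hφ
  have hC : Module.Finite K C.M := Module.Finite.of_surjective (ψ.φ.restrictScalars K) hψ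
  exact trace_exact (φ.φ.restrictScalars K) (ψ.φ.restrictScalars K) hφ hψ hex A.S B.S C.S
    φ.comm ψ.comm

variable (σ) in
/-- eigenvectors of `σ` -/
structure Eig where
  f : R
  c : K
  h : σ f = algebraMap K R c * f

namespace Ob

lemma T_smul (X : Ob σ) (r : R) (x : X.M) : X.T (r • x) = σ r • X.T x := map_smulₛₗ X.T r x

lemma T_eig (X : Ob σ) (e : Eig σ) (x : X.M) : X.T (e.f • x) = e.f • (e.c • X.T x) := by
  rw [T_smul, e.h, mul_comm, mul_smul, algebraMap_smul]

/-- quotient by a submodule stable under `T` -/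
def quot (X : Ob σ) (N : Submodule R X.M) (hN : ∀ x ∈ N, X.T x ∈ N) : Ob σ where
  M := X.M ⧸ N
  T := Submodule.mapQ N N X.T hN

/-- stable submodules -/
def sub (X : Ob σ) (N : Submodule R X.M) (hN : ∀ x ∈ N, X.T x ∈ N) : Ob σ where
  M := N
  T := LinearMap.codRestrict N (X.T.comp N.subtype) (fun x => hN _ x.2)

/-- scaling `T` -/
def scale (X : Ob σ) (c : K) : Ob σ where
  M := X.M
  T := c • X.T

lemma quo_stable (X : Ob σ) (e : Eig σ) : ∀ x ∈ e.f • (⊤ : Submodule R X.M),
    X.T x ∈ e.f • (⊤ : Submodule R X.M) := by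
  intro x hx
  obtain ⟨y, -, rfl⟩ := (Submodule.mem_smul_pointwise_iff_exists _ _ _).mp hx
  rw [T_eig]
  exact Submodule.smul_mem_pointwise_smul _ _ _ Submodule.mem_top

lemma tor_stable (X : Ob σ) (e : Eig σ) : ∀ x ∈ Submodule.torsionBy R X.M e.f,
    e.c • X.T x ∈ Submodule.torsionBy R X.M e.f := by
  intro x hx
  rw [Submodule.mem_torsionBy_iff] at hx ⊢
  rw [← T_eig, hx, map_zero]

/-- `M / f M` -/
def quo (X : Ob σ) (e : Eig σ) : Ob σ := X.quot (e.f • ⊤) (X.quo_stable e)

/-- `(0 :_M f)`, with `T` scaled by the eigenvalue of `f` -/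
def tor (X : Ob σ) (e : Eig σ) : Ob σ where
  M := Submodule.torsionBy R X.M e.f
  T := LinearMap.codRestrict (Submodule.torsionBy R X.M e.f)
    ((e.c • X.T).comp (Submodule.torsionBy R X.M e.f).subtype) (fun x => X.tor_stable e x.1 x.2)

end Ob

/-- The Euler characteristic. -/
noncomputable def F : List (Eig σ) → Ob σ → K
  | [], X => X.tr
  | e :: es, X => F es (X.quo e) - F es (X.tor e)

/-- finiteness condition -/
def Good (es : List (Eig σ)) (X : Ob σ) : Prop :=
  Module.Finite R X.M ∧
    Module.Finite K (R ⧸ (Module.annihilator R X.M ⊔ Ideal.span {r | ∃ e ∈ es, e.f = r}))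

lemma Good.mono {es es' : List (Eig σ)} {X Y : Ob σ} (h : Good es X) (hY : Module.Finite R Y.M)
    (hle : Module.annihilator R X.M ⊔ Ideal.span {r | ∃ e ∈ es, e.f = r} ≤
      Module.annihilator R Y.M ⊔ Ideal.span {r | ∃ e ∈ es', e.f = r}) : Good es' Y := by
  refine ⟨hY, ?_⟩
  have := h.2
  exact Module.Finite.of_surjective (Ideal.Quotient.factorₐ K hle).toLinearMap
    (Ideal.Quotient.factor_surjective hle)

lemma Good.of_injective [IsNoetherianRing R] {es : List (Eig σ)} {X Y : Ob σ} (h : Good es X)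
    (φ : Hm Y X) (hφ : Injective φ.φ) : Good es Y := by
  have := h.1
  refine h.mono (Module.Finite.of_injective φ.φ hφ) (sup_le_sup_right ?_ _)
  exact LinearMap.annihilator_le_of_injective φ.φ hφ

lemma Good.of_surjective {es : List (Eig σ)} {X Y : Ob σ} (h : Good es X)
    (φ : Hm X Y) (hφ : Surjective φ.φ) : Good es Y := by
  have := h.1
  refine h.mono (Module.Finite.of_surjective φ.φ hφ) (sup_le_sup_right ?_ _)
  exact LinearMap.annihilator_le_of_surjective φ.φ hφ

/-- in the base case the module is finite-dimensional -/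
lemma Good.nil {X : Ob σ} (h : Good [] X) : Module.Finite K X.M := by
  obtain ⟨h1, h2⟩ := h
  have h3 : Module.Finite K (R ⧸ Module.annihilator R X.M) := by
    have hle : Module.annihilator R X.M ⊔ Ideal.span {r | ∃ e ∈ ([] : List (Eig σ)), e.f = r} ≤
        Module.annihilator R X.M := by
      refine sup_le le_rfl (Ideal.span_le.2 ?_)
      rintro r ⟨e, he, -⟩
      simp at he
    exact Module.Finite.of_surjective (Ideal.Quotient.factorₐ K hle).toLinearMap
      (Ideal.Quotient.factor_surjective hle)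
  let := Module.quotientAnnihilator (R := R) (M := X.M)
  have : IsScalarTower R (R ⧸ Module.annihilator R X.M) X.M := by
    refine ⟨fun c r x => ?_⟩
    obtain ⟨r, rfl⟩ := Ideal.Quotient.mk_surjective r
    change (c • r) • x = c • (r • x)
    rw [smul_assoc]
  have : IsScalarTower K (R ⧸ Module.annihilator R X.M) X.M := by
    refine ⟨fun c r x => ?_⟩
    obtain ⟨r, rfl⟩ := Ideal.Quotient.mk_surjective r
    change (c • r) • x = c • (r • x)
    rw [smul_assoc]
  have h4 : Module.Finite (R ⧸ Module.annihilator R X.M) X.M :=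
    Module.Finite.of_restrictScalars_finite R _ _
  exact Module.Finite.trans (R ⧸ Module.annihilator R X.M) X.M

end Pool.Agent.Q135.TR
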