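import Mathlib
import Pool.Agent.Q135.TR.Base

/-!
# Additivity of the Euler characteristic
-/

namespace Pool.Agent.Q135.TR

open Function
open scoped Pointwise

variable {K : Type} [Field K] {R : Type} [CommRing R] [Algebra K R] {σ : R →ₐ[K] R}

lemma range_stable {A B : Ob σ} (φ : Hm A B) : ∀ x ∈ LinearMap.range φ.φ,
    B.T x ∈ LinearMap.range φ.φ := by
  rintro _ ⟨a, rfl⟩
  exact ⟨A.T a, φ.comm a⟩

/-- image -/
def rng {A B : Ob σ} (φ : Hm A B) : Ob σ := B.sub (LinearMap.range φ.φ) (range_stable φ)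

/-- inclusion of a stable submodule -/
def subIncl (X : Ob σ) (N : Submodule R X.M) (hN : ∀ x ∈ N, X.T x ∈ N) : Hm (X.sub N hN) X where
  φ := N.subtype
  comm := fun _ => rfl

/-- projection on the image -/
def rngRestrict {A B : Ob σ} (φ : Hm A B) : Hm A (rng φ) where
  φ := φ.φ.rangeRestrict
  comm := fun a => Subtype.ext (φ.comm a)

variable (σ) in
/-- zero object -/
def zer : Ob σ where
  M := PUnit
  T := 0

/-- map to the zero object -/
def toZer (A : Ob σ) : Hm A (zer σ) where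
  φ := 0
  comm := fun _ => rfl

variable (σ) in
/-- additivity for the list `es` -/
def Additive (es : List (Eig σ)) : Prop :=
  ∀ (A B C : Ob σ) (φ : Hm A B) (ψ : Hm B C), Injective φ.φ → Surjective ψ.φ →
    Exact φ.φ ψ.φ → Good es B → F es B = F es A + F es C

lemma good_zer (es : List (Eig σ)) : Good es (zer σ) := by
  have hs : Subsingleton (zer σ).M := inferInstanceAs (Subsingleton PUnit)
  refine ⟨inferInstance, ?_⟩
  have h1 : Module.annihilator R (zer σ).M = ⊤ := Module.annihilator_eq_top_iff.2 hs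
  rw [h1, top_sup_eq]
  have : Subsingleton (R ⧸ (⊤ : Ideal R)) := Ideal.Quotient.subsingleton_iff.2 rfl
  infer_instance

lemma F_zer {es : List (Eig σ)} (h : Additive σ es) : F es (zer σ) = 0 := by
  have := h (zer σ) (zer σ) (zer σ) (toZer _) (toZer _) (fun _ _ _ => rfl) (fun y => ⟨y, rfl⟩)
    (fun x => ⟨fun _ => ⟨x, rfl⟩, fun _ => rfl⟩) (good_zer es)
  simpa using this

lemma F_iso {es : List (Eig σ)} (h : Additive σ es) {A B : Ob σ} (φ : Hm A B)
    (hφ : Bijective φ.φ) (hB : Good es B) : F es B = F es A := by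
  have := h A B (zer σ) φ (toZer B) hφ.1 (fun y => ⟨0, rfl⟩)
    (fun x => ⟨fun _ => hφ.2 x, fun _ => rfl⟩) hB
  rw [F_zer h, add_zero] at this
  exact this

lemma F_mid {es : List (Eig σ)} (h : Additive σ es) {A B C : Ob σ} (φ : Hm A B) (ψ : Hm B C)
    (hex : Exact φ.φ ψ.φ) (hB : Good es B) : F es B = F es (rng φ) + F es (rng ψ) := by
  refine h (rng φ) B (rng ψ) (subIncl B _ (range_stable φ)) (rngRestrict ψ) ?_ ?_ ?_ hB
  · exact Subtype.val_injective
  · exact LinearMap.surjective_rangeRestrict _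
  · intro x
    constructor
    · intro hx
      have h1 : ψ.φ x = 0 := congrArg Subtype.val hx
      obtain ⟨a, ha⟩ := (hex x).1 h1
      exact ⟨⟨x, ⟨a, ha⟩⟩, rfl⟩
    · rintro ⟨⟨_, ⟨a, rfl⟩⟩, rfl⟩
      apply Subtype.ext
      exact hex.apply_apply_eq_zero a

lemma F_rng_inj [IsNoetherianRing R] {es : List (Eig σ)} (h : Additive σ es) {A B : Ob σ}
    (φ : Hm A B) (hφ : Injective φ.φ) (hB : Good es B) : F es (rng φ) = F es A := by
  refine F_iso h (rngRestrict φ) ⟨?_, LinearMap.surjective_rangeRestrict _⟩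
    (hB.of_injective (subIncl B _ (range_stable φ)) Subtype.val_injective)
  intro x y hxy
  exact hφ (congrArg Subtype.val hxy)

lemma F_rng_surj {es : List (Eig σ)} (h : Additive σ es) {A B : Ob σ}
    (φ : Hm A B) (hφ : Surjective φ.φ) (hB : Good es B) : F es (rng φ) = F es B := by
  refine (F_iso h (subIncl B _ (range_stable φ)) ⟨Subtype.val_injective, ?_⟩ hB).symm
  intro x
  exact ⟨⟨x, hφ x⟩, rfl⟩

/-- six-term exact sequences -/
lemma six [IsNoetherianRing R] {es : List (Eig σ)} (h : Additive σ es) {A1 A2 A3 A4 A5 A6 : Ob σ}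
    (φ1 : Hm A1 A2) (φ2 : Hm A2 A3) (φ3 : Hm A3 A4) (φ4 : Hm A4 A5) (φ5 : Hm A5 A6)
    (h1 : Injective φ1.φ) (e2 : Exact φ1.φ φ2.φ) (e3 : Exact φ2.φ φ3.φ) (e4 : Exact φ3.φ φ4.φ)
    (e5 : Exact φ4.φ φ5.φ) (h5 : Surjective φ5.φ) (g2 : Good es A2) (g3 : Good es A3)
    (g4 : Good es A4) (g5 : Good es A5) (g6 : Good es A6) :
    F es A5 - F es A2 = (F es A4 - F es A1) + (F es A6 - F es A3) := by
  rw [F_mid h φ1 φ2 e2 g2, F_mid h φ2 φ3 e3 g3, F_mid h φ3 φ4 e4 g4, F_mid h φ4 φ5 e5 g5,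
    F_rng_inj h φ1 h1 g2, F_rng_surj h φ5 h5 g6]
  ring

/-- map on quotients -/
def quoMap {A B : Ob σ} (φ : Hm A B) (e : Eig σ) : Hm (A.quo e) (B.quo e) where
  φ := QuotSMulTop.map e.f φ.φ
  comm := by
    intro x
    obtain ⟨x, rfl⟩ := Submodule.Quotient.mk_surjective _ x
    exact congrArg Submodule.Quotient.mk (φ.comm x)

/-- map on torsion -/
def torMap {A B : Ob σ} (φ : Hm A B) (e : Eig σ) : Hm (A.tor e) (B.tor e) where
  φ := φ.φ.restrict (p := Submodule.torsionBy R A.M e.f) (q := Submodule.torsionBy R B.M e.f)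
    (by
      intro x hx
      rw [Submodule.mem_torsionBy_iff] at hx ⊢
      rw [← map_smul, hx, map_zero])
  comm := by
    rintro ⟨x, hx⟩
    apply Subtype.ext
    change φ.φ (e.c • A.T x) = e.c • B.T (φ.φ x)
    rw [← φ.comm]
    exact LinearMap.map_smul_of_tower φ.φ e.c _

lemma span_cons_le (e : Eig σ) (es : List (Eig σ)) (I : Ideal R) (h : e.f ∈ I) :
    Ideal.span {r | ∃ e' ∈ e :: es, e'.f = r} ≤ I ⊔ Ideal.span {r | ∃ e' ∈ es, e'.f = r} := by
  rw [Ideal.span_le]
  rintro r ⟨e', he', rfl⟩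
  rcases List.mem_cons.1 he' with rfl | he'
  · exact Ideal.mem_sup_left h
  · exact Ideal.mem_sup_right (Ideal.subset_span ⟨e', he', rfl⟩)

lemma Good.quo {e : Eig σ} {es : List (Eig σ)} {X : Ob σ} (h : Good (e :: es) X) :
    Good es (X.quo e) := by
  have := h.1
  have h1 : Module.annihilator R X.M ≤ Module.annihilator R (X.quo e).M :=
    LinearMap.annihilator_le_of_surjective (Submodule.mkQ (e.f • (⊤ : Submodule R X.M)))
      (Submodule.mkQ_surjective _)
  have h2 : e.f ∈ Module.annihilator R (X.quo e).M := by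
    rw [Module.mem_annihilator]
    intro x
    obtain ⟨x, rfl⟩ := Submodule.Quotient.mk_surjective _ x
    exact (Submodule.Quotient.mk_eq_zero _).2
      (Submodule.smul_mem_pointwise_smul _ _ _ Submodule.mem_top)
  refine h.mono (Module.Finite.of_surjective (Submodule.mkQ (e.f • (⊤ : Submodule R X.M)))
      (Submodule.mkQ_surjective _)) (sup_le (h1.trans le_sup_left) (span_cons_le e es _ h2))

lemma Good.tor [IsNoetherianRing R] {e : Eig σ} {es : List (Eig σ)} {X : Ob σ}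
    (h : Good (e :: es) X) : Good es (X.tor e) := by
  have := h.1
  have h1 : Module.annihilator R X.M ≤ Module.annihilator R (X.tor e).M :=
    LinearMap.annihilator_le_of_injective (Submodule.torsionBy R X.M e.f).subtype
      Subtype.val_injective
  have h2 : e.f ∈ Module.annihilator R (X.tor e).M := by
    rw [Module.mem_annihilator]
    intro x
    exact Subtype.ext ((Submodule.mem_torsionBy_iff _ _).1 x.2)
  refine h.mono (Module.Finite.of_injective (Submodule.torsionBy R X.M e.f).subtype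
      Subtype.val_injective) (sup_le (h1.trans le_sup_left) (span_cons_le e es _ h2))

section snake

variable {A B C : Ob σ} (φ : Hm A B) (ψ : Hm B C) (hφ : Injective φ.φ) (hψ : Surjective ψ.φ)
  (hex : Exact φ.φ ψ.φ) (e : Eig σ)

lemma tor_exact (X : Ob σ) (e : Eig σ) :
    Exact (Submodule.torsionBy R X.M e.f).subtype (e.f • (LinearMap.id : X.M →ₗ[R] X.M)) := by
  intro x
  constructor
  · intro hx
    exact ⟨⟨x, (Submodule.mem_torsionBy_iff _ _).2 hx⟩, rfl⟩
  · rintro ⟨⟨y, hy⟩, rfl⟩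
    exact (Submodule.mem_torsionBy_iff _ _).1 hy

lemma quo_exact (X : Ob σ) (e : Eig σ) :
    Exact (e.f • (LinearMap.id : X.M →ₗ[R] X.M)) (Submodule.mkQ (e.f • (⊤ : Submodule R X.M))) := by
  intro x
  constructor
  · intro hx
    rw [Submodule.mkQ_apply, Submodule.Quotient.mk_eq_zero] at hx
    obtain ⟨y, -, rfl⟩ := (Submodule.mem_smul_pointwise_iff_exists _ _ _).mp hx
    exact ⟨y, rfl⟩
  · rintro ⟨y, rfl⟩
    rw [Submodule.mkQ_apply, Submodule.Quotient.mk_eq_zero]
    exact Submodule.smul_mem_pointwise_smul _ _ _ Submodule.mem_top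

lemma comm_smul {X Y : Ob σ} (φ : Hm X Y) (e : Eig σ) :
    φ.φ.comp (e.f • (LinearMap.id : X.M →ₗ[R] X.M)) =
      (e.f • (LinearMap.id : Y.M →ₗ[R] Y.M)).comp φ.φ := by
  ext x
  exact map_smul φ.φ e.f x

/-- connecting homomorphism -/
noncomputable def conn : (Submodule.torsionBy R C.M e.f) →ₗ[R] (A.M ⧸ (e.f • (⊤ : Submodule R A.M))) :=
  SnakeLemma.δ' (e.f • (LinearMap.id : A.M →ₗ[R] A.M)) (e.f • (LinearMap.id : B.M →ₗ[R] B.M))
    (e.f • (LinearMap.id : C.M →ₗ[R] C.M)) φ.φ ψ.φ hex φ.φ ψ.φ hex (comm_smul φ e)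
    (comm_smul ψ e) (Submodule.torsionBy R C.M e.f).subtype (tor_exact C e)
    (Submodule.mkQ (e.f • (⊤ : Submodule R A.M))) (quo_exact A e) hψ hφ

lemma conn_eq (x : Submodule.torsionBy R C.M e.f) (y : B.M) (hy : ψ.φ y = x.1) (z : A.M)
    (hz : φ.φ z = e.f • y) : conn φ ψ hφ hψ hex e x = Submodule.Quotient.mk z :=
  SnakeLemma.δ'_eq _ _ _ _ _ _ _ _ _ _ _ _ _ _ _ _ _ x y hy z hz

lemma conn_exact_right : Exact (torMap ψ e).φ (conn φ ψ hφ hψ hex e) :=
  SnakeLemma.exact_δ'_right (e.f • (LinearMap.id : A.M →ₗ[R] A.M))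
    (e.f • (LinearMap.id : B.M →ₗ[R] B.M))
    (e.f • (LinearMap.id : C.M →ₗ[R] C.M)) φ.φ ψ.φ hex φ.φ ψ.φ hex (comm_smul φ e)
    (comm_smul ψ e) (Submodule.torsionBy R B.M e.f).subtype (tor_exact B e)
    (Submodule.torsionBy R C.M e.f).subtype (tor_exact C e)
    (Submodule.mkQ (e.f • (⊤ : Submodule R A.M))) (quo_exact A e) hψ hφ (torMap ψ e).φ rfl
    Subtype.val_injective

lemma conn_exact_left : Exact (conn φ ψ hφ hψ hex e) (quoMap φ e).φ :=
  SnakeLemma.exact_δ'_left (e.f • (LinearMap.id : A.M →ₗ[R] A.M))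
    (e.f • (LinearMap.id : B.M →ₗ[R] B.M))
    (e.f • (LinearMap.id : C.M →ₗ[R] C.M)) φ.φ ψ.φ hex φ.φ ψ.φ hex (comm_smul φ e)
    (comm_smul ψ e) (Submodule.torsionBy R C.M e.f).subtype (tor_exact C e)
    (Submodule.mkQ (e.f • (⊤ : Submodule R A.M))) (quo_exact A e)
    (Submodule.mkQ (e.f • (⊤ : Submodule R B.M))) (quo_exact B e) hψ hφ (quoMap φ e).φ rfl
    (Submodule.mkQ_surjective _)

/-- connecting homomorphism -/
noncomputable def connHm : Hm (C.tor e) (A.quo e) where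
  φ := conn φ ψ hφ hψ hex e
  comm := by
    rintro ⟨x, hx⟩
    obtain ⟨y, hy⟩ := hψ x
    have h0 : ψ.φ (e.f • y) = 0 := by
      rw [map_smul, hy]
      exact (Submodule.mem_torsionBy_iff _ _).1 hx
    obtain ⟨z, hz⟩ := (hex _).1 h0
    have h1 : conn φ ψ hφ hψ hex e ⟨x, hx⟩ = Submodule.Quotient.mk z :=
      conn_eq φ ψ hφ hψ hex e ⟨x, hx⟩ y hy z hz
    have h2 : conn φ ψ hφ hψ hex e ((C.tor e).T ⟨x, hx⟩) = Submodule.Quotient.mk (A.T z) := by
      refine conn_eq φ ψ hφ hψ hex e ((C.tor e).T ⟨x, hx⟩) (e.c • B.T y) ?_ (A.T z) ?_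
      · change ψ.φ (e.c • B.T y) = e.c • C.T x
        rw [← hy, ← ψ.comm]
        exact LinearMap.map_smul_of_tower ψ.φ e.c _
      · rw [φ.comm, hz, Ob.T_eig]
    change conn φ ψ hφ hψ hex e ((C.tor e).T ⟨x, hx⟩) = _
    rw [h2]
    change _ = (A.quo e).T (conn φ ψ hφ hψ hex e ⟨x, hx⟩)
    rw [h1]
    rfl

end snake

theorem additive [IsNoetherianRing R] (es : List (Eig σ)) : Additive σ es := by
  induction es with
  | nil =>
    intro A B C φ ψ hφ hψ hex hB
    exact tr_exact φ ψ hφ hψ hex hB.nil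
  | cons e es ih =>
    intro A B C φ ψ hφ hψ hex hB
    have hA : Good (e :: es) A := hB.of_injective φ hφ
    have hC : Good (e :: es) C := hB.of_surjective ψ hψ
    refine six ih (torMap φ e) (torMap ψ e) (connHm φ ψ hφ hψ hex e) (quoMap φ e) (quoMap ψ e)
      ?_ ?_ ?_ ?_ ?_ ?_ hB.tor hC.tor hA.quo hB.quo hC.quo
    · intro x y hxy
      exact Subtype.ext (hφ (congrArg Subtype.val hxy))
    · rintro ⟨x, hx⟩
      constructor
      · intro h0
        have h1 : ψ.φ x = 0 := congrArg Subtype.val h0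
        obtain ⟨a, ha⟩ := (hex x).1 h1
        refine ⟨⟨a, ?_⟩, Subtype.ext ha⟩
        rw [Submodule.mem_torsionBy_iff] at hx ⊢
        apply hφ
        rw [map_smul, ha, hx, map_zero]
      · rintro ⟨⟨a, ha⟩, h1⟩
        have h2 : φ.φ a = x := congrArg Subtype.val h1
        apply Subtype.ext
        change ψ.φ x = 0
        rw [← h2]
        exact hex.apply_apply_eq_zero a
    · exact conn_exact_right φ ψ hφ hψ hex e
    · exact conn_exact_left φ ψ hφ hψ hex e
    · exact QuotSMulTop.map_exact e.f hex hψ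
    · exact QuotSMulTop.map_surjective e.f hψ

end Pool.Agent.Q135.TR
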