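import Mathlib
import Pool.Agent.H431R2.SCM.RL5

/-!
# Systems of parameters of Cohen-Macaulay modules are regular sequences
-/

namespace Pool.Agent.Q135.TR

open IsLocalRing RingTheory.Sequence
open scoped Pointwise

variable {R : Type} [CommRing R] [IsLocalRing R] [IsNoetherianRing R]

lemma exists_assoc (M : Type) [AddCommGroup M] [Module R M] [Module.Finite R M] (x : R)
    (hx : x ∈ maximalIdeal R) (hreg : IsSMulRegular M x) (p : Ideal R)
    (hp : p ∈ associatedPrimes R M) :
    ∃ q ∈ associatedPrimes R (QuotSMulTop x M), p ≤ q ∧ x ∈ q := by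
  obtain ⟨hpp, z0, hz0⟩ := isAssociatedPrime_iff.1 hp
  have hz0' : z0 ≠ 0 := by
    rintro rfl
    apply hpp.ne_top
    rw [hz0]
    ext r
    simp
  let U : Submodule R M := Submodule.torsionBySet R M (p : Set R)
  have hU : ∀ z, z ∈ U ↔ ∀ a ∈ p, a • z = 0 := by
    intro z
    rw [Submodule.mem_torsionBySet_iff]
    constructor
    · intro h a ha
      exact h ⟨a, ha⟩
    · rintro h ⟨a, ha⟩
      exact h a ha
  have hz0U : z0 ∈ U := by
    rw [hU]
    intro a ha
    rw [hz0, Submodule.mem_colon_singleton, Submodule.mem_bot] at ha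
    exact ha
  have hex : ∃ z ∈ U, z ∉ x • (⊤ : Submodule R M) := by
    by_contra hcon
    push Not at hcon
    have h1 : U ≤ maximalIdeal R • U := by
      intro u hu
      obtain ⟨w, -, rfl⟩ := (Submodule.mem_smul_pointwise_iff_exists _ _ _).mp (hcon u hu)
      apply Submodule.smul_mem_smul hx
      rw [hU] at hu ⊢
      intro a ha
      apply hreg
      change x • (a • w) = x • (0 : M)
      rw [smul_comm, hu a ha, smul_zero]
    have h2 := Submodule.eq_bot_of_le_smul_of_le_jacobson_bot (maximalIdeal R) U
      (IsNoetherian.noetherian U) h1 (maximalIdeal_le_jacobson _)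
    rw [h2, Submodule.mem_bot] at hz0U
    exact hz0' hz0U
  obtain ⟨z, hzU, hz⟩ := hex
  have hzne : (Submodule.Quotient.mk z : QuotSMulTop x M) ≠ 0 := by
    rw [Ne, Submodule.Quotient.mk_eq_zero]
    exact hz
  obtain ⟨P, hP, hle⟩ := exists_le_isAssociatedPrime_of_isNoetherianRing R _ hzne
  refine ⟨P, hP, ?_, ?_⟩
  · intro a ha
    apply hle
    rw [Submodule.mem_colon_singleton, Submodule.mem_bot, ← Submodule.Quotient.mk_smul,
      (hU z).1 hzU a ha, Submodule.Quotient.mk_zero]
  · apply hle
    rw [Submodule.mem_colon_singleton, Submodule.mem_bot, ← Submodule.Quotient.mk_smul,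
      Submodule.Quotient.mk_eq_zero]
    exact Submodule.smul_mem_pointwise_smul _ _ _ Submodule.mem_top

theorem len_le_dim (xs : List R) : ∀ (M : Type) [AddCommGroup M] [Module R M] [Module.Finite R M]
    (p : Ideal R), p ∈ associatedPrimes R M → (∀ x ∈ xs, x ∈ maximalIdeal R) →
    IsWeaklyRegular M xs → (xs.length : WithBot ℕ∞) ≤ ringKrullDim (R ⧸ p) := by
  induction xs with
  | nil =>
    intro M _ _ _ p hp _ _
    have hpp : p.IsPrime := hp.1
    have : Nontrivial (R ⧸ p) := Ideal.Quotient.nontrivial_iff.2 hpp.ne_top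
    simpa using ringKrullDim_nonneg_of_nontrivial
  | cons x xs ih =>
    intro M _ _ _ p hp hm hreg
    rw [isWeaklyRegular_cons_iff] at hreg
    have hx : x ∈ maximalIdeal R := hm x (by simp)
    obtain ⟨q, hq, hpq, hxq⟩ := exists_assoc M x hx hreg.1 p hp
    have h1 := ih (QuotSMulTop x M) q hq (fun y hy => hm y (by simp [hy])) hreg.2
    have hpp : p.IsPrime := hp.1
    have hxp : x ∉ p := by
      intro hxp
      obtain ⟨-, z0, hz0⟩ := isAssociatedPrime_iff.1 hp
      rw [hz0, Submodule.mem_colon_singleton, Submodule.mem_bot] at hxp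
      have hz : z0 = 0 := hreg.1 (by
        change x • z0 = x • (0 : M)
        rw [hxp, smul_zero])
      apply hpp.ne_top
      rw [hz0, hz]
      ext r
      simp
    have h2 : ringKrullDim (R ⧸ q) + 1 ≤ ringKrullDim (R ⧸ p) := by
      refine ringKrullDim_succ_le_of_surjective (Ideal.Quotient.factor hpq)
        (Ideal.Quotient.factor_surjective hpq) (r := Ideal.Quotient.mk p x) ?_ ?_
      · apply mem_nonZeroDivisors_of_ne_zero
        rw [Ne, Ideal.Quotient.eq_zero_iff_mem]
        exact hxp
      · rw [Ideal.Quotient.factor_mk, Ideal.Quotient.eq_zero_iff_mem]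
        exact hxq
    refine le_trans ?_ h2
    rw [List.length_cons]
    push_cast
    gcongr

theorem regular_of_dim (k : ℕ) : ∀ (M : Type) [AddCommGroup M] [Module R M] [Module.Finite R M]
    [Nontrivial M] (xs : List R), xs.length = k → (∀ x ∈ xs, x ∈ maximalIdeal R) →
    IsRegular M xs → ∀ bs : List R, bs.length = k → (∀ b ∈ bs, b ∈ maximalIdeal R) →
    ringKrullDim (R ⧸ (Module.annihilator R M ⊔ Ideal.ofList bs)) ≤ 0 →
    IsWeaklyRegular M bs := by
  induction k with
  | zero =>
    intro M _ _ _ _ xs _ _ _ bs hbs _ _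
    rw [List.length_eq_zero_iff] at hbs
    rw [hbs]
    exact IsWeaklyRegular.nil R M
  | succ k ih =>
    intro M _ _ _ _ xs hxs hxm hreg bs hbs hbm hdim
    obtain ⟨b, bs, rfl⟩ : ∃ b bs', bs = b :: bs' := by
      cases bs with
      | nil => simp at hbs
      | cons b bs => exact ⟨b, bs, rfl⟩
    have hb : b ∈ maximalIdeal R := hbm b (by simp)
    have hbs' : bs.length = k := by simpa using hbs
    rw [Ideal.ofList_cons] at hdim
    have hbreg : IsSMulRegular M b := by
      by_contra hcon
      have h1 : b ∈ {r : R | ∃ x : M, x ≠ 0 ∧ r • x = 0} := by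
        rw [isSMulRegular_iff_right_eq_zero_of_smul] at hcon
        push Not at hcon
        obtain ⟨x, hx1, hx2⟩ := hcon
        exact ⟨x, hx2, hx1⟩
      rw [← biUnion_associatedPrimes_eq_zero_divisors, Set.mem_iUnion₂] at h1
      obtain ⟨p, hp, hbp⟩ := h1
      have hpp : p.IsPrime := hp.1
      have h2 := len_le_dim xs M p hp hxm hreg.toIsWeaklyRegular
      have hann : Module.annihilator R M ≤ p := by
        have := IsAssociatedPrime.annihilator_le hp
        rwa [Submodule.annihilator_top] at this
      have : Nontrivial (R ⧸ p) := Ideal.Quotient.nontrivial_iff.2 hpp.ne_top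
      have : IsLocalRing (R ⧸ p) :=
        IsLocalRing.of_surjective' (Ideal.Quotient.mk p) Ideal.Quotient.mk_surjective
      classical
      let s : Finset (R ⧸ p) := (bs.map (Ideal.Quotient.mk p)).toFinset
      have hs : ((s : Finset (R ⧸ p)) : Set (R ⧸ p)) ⊆ Ring.jacobson (R ⧸ p) := by
        intro y hy
        simp only [s, List.coe_toFinset, List.mem_map, Set.mem_ofPred_eq] at hy
        obtain ⟨c, hc, rfl⟩ := hy
        rw [IsLocalRing.ringJacobson_eq_maximalIdeal]
        have hcm := hbm c (by simp [hc])
        have : IsLocalHom (Ideal.Quotient.mk p) :=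
          IsLocalHom.of_surjective (Ideal.Quotient.mk p) Ideal.Quotient.mk_surjective
        exact IsLocalRing.map_maximalIdeal_le (Ideal.Quotient.mk p) (Ideal.mem_map_of_mem _ hcm)
      have h3 := ringKrullDim_le_ringKrullDim_quotient_add_card s hs
      have h4 : ringKrullDim ((R ⧸ p) ⧸ Ideal.span (s : Set (R ⧸ p))) ≤ 0 := by
        refine le_trans ?_ hdim
        have hle : ∀ a ∈ Module.annihilator R M ⊔ (Ideal.span {b} ⊔ Ideal.ofList bs),
            ((Ideal.Quotient.mk (Ideal.span (s : Set (R ⧸ p)))).comp (Ideal.Quotient.mk p)) a = 0 := by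
          have : Module.annihilator R M ⊔ (Ideal.span {b} ⊔ Ideal.ofList bs) ≤
              RingHom.ker ((Ideal.Quotient.mk (Ideal.span (s : Set (R ⧸ p)))).comp
                (Ideal.Quotient.mk p)) := by
            refine sup_le ?_ (sup_le ?_ ?_)
            · intro a ha
              rw [RingHom.mem_ker, RingHom.comp_apply, Ideal.Quotient.eq_zero_iff_mem.2 (hann ha),
                map_zero]
            · rw [Ideal.span_singleton_le_iff_mem, RingHom.mem_ker, RingHom.comp_apply,
                Ideal.Quotient.eq_zero_iff_mem.2 hbp, map_zero]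
            · rw [Ideal.ofList, Ideal.span_le]
              intro c hc
              change ((Ideal.Quotient.mk (Ideal.span (s : Set (R ⧸ p)))).comp
                (Ideal.Quotient.mk p)) c = 0
              rw [RingHom.comp_apply, Ideal.Quotient.eq_zero_iff_mem]
              apply Ideal.subset_span
              simp only [s, List.coe_toFinset, List.mem_map, Set.mem_ofPred_eq]
              exact ⟨c, hc, rfl⟩
          exact this
        exact ringKrullDim_le_of_surjective (Ideal.Quotient.lift _ _ hle)
          (Ideal.Quotient.lift_surjective_of_surjective _ _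
            (Ideal.Quotient.mk_surjective.comp Ideal.Quotient.mk_surjective))
      have h5 : s.card ≤ k := by
        refine (List.toFinset_card_le _).trans ?_
        rw [List.length_map, hbs']
      have h6 : ((k + 1 : ℕ) : WithBot ℕ∞) ≤ (k : ℕ) := by
        calc ((k + 1 : ℕ) : WithBot ℕ∞) = (xs.length : WithBot ℕ∞) := by rw [hxs]
          _ ≤ ringKrullDim (R ⧸ p) := h2
          _ ≤ ringKrullDim ((R ⧸ p) ⧸ Ideal.span (s : Set (R ⧸ p))) + s.card := h3
          _ ≤ 0 + (s.card : WithBot ℕ∞) := by gcongr
          _ ≤ (k : ℕ) := by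
            rw [zero_add]
            exact_mod_cast h5
      have h7 : k + 1 ≤ k := by exact_mod_cast h6
      omega
    obtain ⟨ys, hys, hym, hyreg⟩ := H431RL.exchange M k xs hxs hxm hreg b hb hbreg
    have hnt : Nontrivial (QuotSMulTop b M) := H431RL.nontrivial_quot M b hb
    have h1 := ih (QuotSMulTop b M) ys hys hym hyreg bs hbs' (fun c hc => hbm c (by simp [hc])) (by
      refine le_trans ?_ hdim
      have hle : Module.annihilator R M ⊔ (Ideal.span {b} ⊔ Ideal.ofList bs) ≤
          Module.annihilator R (QuotSMulTop b M) ⊔ Ideal.ofList bs := by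
        refine sup_le (le_sup_of_le_left ?_) (sup_le (le_sup_of_le_left ?_) le_sup_right)
        · exact LinearMap.annihilator_le_of_surjective (Submodule.mkQ (b • (⊤ : Submodule R M)))
            (Submodule.mkQ_surjective _)
        · rw [Ideal.span_singleton_le_iff_mem]
          exact QuotSMulTop.mem_annihilator M b
      exact ringKrullDim_le_of_surjective (Ideal.Quotient.factor hle)
        (Ideal.Quotient.factor_surjective hle))
    rw [isWeaklyRegular_cons_iff]
    exact ⟨hbreg, h1⟩

end Pool.Agent.Q135.TR
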