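import Mathlib
import Pool.Agent.Q135.TR.Add

/-!
# Computing the Euler characteristic
-/

namespace Pool.Agent.Q135.TR

open Function RingTheory.Sequence
open scoped Pointwise

variable {K : Type} [Field K] {R : Type} [CommRing R] [Algebra K R] {σ : R →ₐ[K] R}

lemma Ob.ext_T {M : Type} [AddCommGroup M] [Module R M] [Module K M] [IsScalarTower K R M]
    (T T' : M →ₛₗ[(σ : R →+* R)] M) (h : T = T') : (⟨M, T⟩ : Ob σ) = ⟨M, T'⟩ := by rw [h]

lemma scale_quo (X : Ob σ) (c : K) (e : Eig σ) : (X.scale c).quo e = (X.quo e).scale c := by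
  refine @Ob.ext_T K _ R _ _ σ (X.quo e).M (X.quo e).ag (X.quo e).mR (X.quo e).mK (X.quo e).st
    _ _ ?_
  ext x
  obtain ⟨x, rfl⟩ := Submodule.Quotient.mk_surjective _ x
  rfl

lemma scale_tor (X : Ob σ) (c : K) (e : Eig σ) : (X.scale c).tor e = (X.tor e).scale c := by
  refine @Ob.ext_T K _ R _ _ σ (X.tor e).M (X.tor e).ag (X.tor e).mR (X.tor e).mK (X.tor e).st
    _ _ ?_
  ext x
  exact smul_comm e.c c (X.T x.1)

lemma F_scale (es : List (Eig σ)) : ∀ (X : Ob σ) (c : K), F es (X.scale c) = c * F es X := by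
  induction es with
  | nil =>
    intro X c
    change LinearMap.trace K X.M (X.scale c).S = c * LinearMap.trace K X.M X.S
    have : (X.scale c).S = c • X.S := rfl
    rw [this, map_smul, smul_eq_mul]
  | cons e es ih =>
    intro X c
    change F es ((X.scale c).quo e) - F es ((X.scale c).tor e) = c * (F es (X.quo e) - F es (X.tor e))
    rw [scale_quo, scale_tor, ih, ih]
    ring

/-- projection to the quotient -/
def mkHm (X : Ob σ) (e : Eig σ) : Hm X (X.quo e) where
  φ := Submodule.mkQ (e.f • ⊤)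
  comm := fun _ => rfl

/-- inclusion of the torsion -/
def torHm (X : Ob σ) (e : Eig σ) : Hm (X.tor e) (X.scale e.c) where
  φ := (Submodule.torsionBy R X.M e.f).subtype
  comm := fun _ => rfl

/-- multiplication by an eigenvector -/
def mulHm (X : Ob σ) (e : Eig σ) : Hm (X.scale e.c) X where
  φ := e.f • (LinearMap.id : X.M →ₗ[R] X.M)
  comm := fun x => (X.T_eig e x).symm

lemma Good.scale {es : List (Eig σ)} {X : Ob σ} (h : Good es X) (c : K) : Good es (X.scale c) := h

theorem F_head_zero [IsNoetherianRing R] (e : Eig σ) (es : List (Eig σ)) (X : Ob σ)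
    (hz : ∀ x : X.M, e.f • x = 0) (hg : Good (e :: es) X) : F (e :: es) X = (1 - e.c) * F es X := by
  change F es (X.quo e) - F es (X.tor e) = (1 - e.c) * F es X
  have h1 : F es (X.quo e) = F es X := by
    refine F_iso (additive es) (mkHm X e) ⟨?_, Submodule.mkQ_surjective _⟩ hg.quo
    rw [← LinearMap.ker_eq_bot]
    change LinearMap.ker (Submodule.mkQ (e.f • (⊤ : Submodule R X.M))) = ⊥
    rw [Submodule.ker_mkQ, eq_bot_iff]
    intro x hx
    obtain ⟨y, -, rfl⟩ := (Submodule.mem_smul_pointwise_iff_exists _ _ _).mp hx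
    rw [hz]
    exact Submodule.zero_mem _
  have hgX : Good es X := by
    refine hg.mono hg.1 (sup_le le_sup_left (span_cons_le e es _ ?_))
    rw [Module.mem_annihilator]
    exact hz
  have h2 : F es (X.scale e.c) = F es (X.tor e) := by
    refine F_iso (additive es) (torHm X e) ⟨Subtype.val_injective, ?_⟩ (hgX.scale e.c)
    intro x
    exact ⟨⟨x, (Submodule.mem_torsionBy_iff _ _).2 (hz x)⟩, rfl⟩
  rw [h1, ← h2, F_scale]
  ring

theorem F_quo_regular [IsNoetherianRing R] (l : Eig σ) (es : List (Eig σ)) (X : Ob σ)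
    (hl : IsSMulRegular X.M l.f) (hg : Good es X) : F es (X.quo l) = (1 - l.c) * F es X := by
  have h1 := additive es (X.scale l.c) X (X.quo l) (mulHm X l) (mkHm X l) hl
    (Submodule.mkQ_surjective _) (quo_exact X l) hg
  rw [F_scale] at h1
  linear_combination -h1

theorem F_tor_regular [IsNoetherianRing R] (l : Eig σ) (es : List (Eig σ)) (X : Ob σ)
    (hl : IsSMulRegular X.M l.f) : F es (X.tor l) = 0 := by
  have hs : Subsingleton (X.tor l).M := by
    refine ⟨fun x y => Subtype.ext ?_⟩
    have h1 : ∀ z : X.M, l.f • z = 0 → z = 0 := isSMulRegular_iff_right_eq_zero_of_smul.1 hl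
    have hx : x.1 = 0 := h1 x.1 ((Submodule.mem_torsionBy_iff _ _).1 x.2)
    have hy : y.1 = 0 := h1 y.1 ((Submodule.mem_torsionBy_iff _ _).1 y.2)
    rw [hx, hy]
  have h0 := F_iso (additive es) (toZer (X.tor l)) ⟨fun x y _ => Subsingleton.elim x y,
    fun y => ⟨0, rfl⟩⟩ (good_zer es)
  rw [← h0, F_zer (additive es)]

/-- factoring through the first quotient -/
lemma exists_factor {X Y : Ob σ} (φ : Hm X Y) (hφ : Surjective φ.φ) (e : Eig σ)
    (es : List (Eig σ))
    (hk : LinearMap.ker φ.φ = Ideal.ofList ((e :: es).map Eig.f) • (⊤ : Submodule R X.M)) :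
    ∃ φ' : Hm (X.quo e) Y, Surjective φ'.φ ∧
      LinearMap.ker φ'.φ = Ideal.ofList (es.map Eig.f) • (⊤ : Submodule R (X.quo e).M) := by
  have hk' : LinearMap.ker φ.φ = e.f • (⊤ : Submodule R X.M) ⊔
      Ideal.ofList (es.map Eig.f) • (⊤ : Submodule R X.M) := by
    rw [hk, List.map_cons, Ideal.ofList_cons, Submodule.sup_smul, Submodule.ideal_span_singleton_smul]
  have hle : e.f • (⊤ : Submodule R X.M) ≤ LinearMap.ker φ.φ := by
    rw [hk']
    exact le_sup_left
  refine ⟨⟨Submodule.liftQ (e.f • (⊤ : Submodule R X.M)) φ.φ hle, ?_⟩, ?_, ?_⟩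
  · intro x
    obtain ⟨x, rfl⟩ := Submodule.Quotient.mk_surjective _ x
    exact φ.comm x
  · intro y
    obtain ⟨x, hx⟩ := hφ y
    exact ⟨Submodule.Quotient.mk x, hx⟩
  · change LinearMap.ker (Submodule.liftQ (e.f • (⊤ : Submodule R X.M)) φ.φ hle) = _
    rw [Submodule.ker_liftQ, hk', Submodule.map_sup, Submodule.map_smul'', Submodule.map_top,
      Submodule.range_mkQ]
    have : Submodule.map (Submodule.mkQ (e.f • (⊤ : Submodule R X.M)))
        (e.f • (⊤ : Submodule R X.M)) = ⊥ := by
      rw [eq_bot_iff]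
      rintro _ ⟨x, hx, rfl⟩
      exact (Submodule.Quotient.mk_eq_zero _).2 hx
    rw [this, bot_sup_eq]
    rfl

/-- along a regular sequence of eigenvectors -/
theorem F_regular_seq [IsNoetherianRing R] (es : List (Eig σ)) (ls : List (Eig σ)) :
    ∀ (X Y : Ob σ) (φ : Hm X Y), Surjective φ.φ →
    LinearMap.ker φ.φ = Ideal.ofList (ls.map Eig.f) • (⊤ : Submodule R X.M) →
    IsWeaklyRegular X.M (ls.map Eig.f) → Good es X →
    F es Y = (ls.map fun l => 1 - l.c).prod * F es X := by
  induction ls with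
  | nil =>
    intro X Y φ hφ hk _ hg
    rw [List.map_nil, Ideal.ofList_nil, Submodule.bot_smul, LinearMap.ker_eq_bot] at hk
    rw [List.map_nil, List.prod_nil, one_mul]
    exact F_iso (additive es) φ ⟨hk, hφ⟩ (hg.of_surjective φ hφ)
  | cons l ls ih =>
    intro X Y φ hφ hk hreg hg
    rw [List.map_cons, isWeaklyRegular_cons_iff] at hreg
    obtain ⟨φ', hφ', hk'⟩ := exists_factor φ hφ l ls hk
    have h1 := ih (X.quo l) Y φ' hφ' hk' hreg.2
      (hg.of_surjective (mkHm X l) (Submodule.mkQ_surjective _))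
    rw [h1, F_quo_regular l es X hreg.1 hg, List.map_cons, List.prod_cons]
    ring

/-- the Euler characteristic of a regular sequence -/
theorem F_eq_trace [IsNoetherianRing R] (es : List (Eig σ)) :
    ∀ (X Y : Ob σ) (φ : Hm X Y), Surjective φ.φ →
    LinearMap.ker φ.φ = Ideal.ofList (es.map Eig.f) • (⊤ : Submodule R X.M) →
    IsWeaklyRegular X.M (es.map Eig.f) → Good es X → F es X = Y.tr := by
  induction es with
  | nil =>
    intro X Y φ hφ hk _ hg
    rw [List.map_nil, Ideal.ofList_nil, Submodule.bot_smul, LinearMap.ker_eq_bot] at hk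
    exact (F_iso (additive []) φ ⟨hk, hφ⟩ (hg.of_surjective φ hφ)).symm
  | cons e es ih =>
    intro X Y φ hφ hk hreg hg
    rw [List.map_cons, isWeaklyRegular_cons_iff] at hreg
    obtain ⟨φ', hφ', hk'⟩ := exists_factor φ hφ e es hk
    change F es (X.quo e) - F es (X.tor e) = Y.tr
    rw [F_tor_regular e es X hreg.1, sub_zero]
    exact ih (X.quo e) Y φ' hφ' hk' hreg.2 hg.quo

/-- removing elements which act by zero -/
theorem F_append_zero [IsNoetherianRing R] (ns es : List (Eig σ)) (X : Ob σ)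
    (hz : ∀ e ∈ ns, ∀ x : X.M, e.f • x = 0) (hg : Good (ns ++ es) X) :
    F (ns ++ es) X = (ns.map fun e => 1 - e.c).prod * F es X := by
  induction ns with
  | nil => simp
  | cons n ns ih =>
    rw [List.cons_append] at hg ⊢
    have hn : ∀ x : X.M, n.f • x = 0 := hz n (by simp)
    rw [F_head_zero n (ns ++ es) X hn hg]
    have hg' : Good (ns ++ es) X := by
      refine hg.mono hg.1 (sup_le le_sup_left (span_cons_le n _ _ ?_))
      rw [Module.mem_annihilator]
      exact hn
    rw [ih (fun e he => hz e (by simp [he])) hg', List.map_cons, List.prod_cons]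
    ring

end Pool.Agent.Q135.TR
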