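import Mathlib

/-!
# Matrices of finite order are diagonalisable
-/

namespace Pool.Agent.Q135.TR

open Module Polynomial

theorem exists_diag {n : ℕ} (A : Matrix (Fin n) (Fin n) ℂ) (N : ℕ) (hN : 0 < N) (hA : A ^ N = 1) :
    ∃ (P : Matrix (Fin n) (Fin n) ℂ) (d : Fin n → ℂ), IsUnit P ∧ P * A = Matrix.diagonal d * P := by
  let φ : End ℂ (Fin n → ℂ) := Matrix.toLin' A.transpose
  have hφ : φ ^ N = 1 := by
    change (Matrix.toLin' A.transpose) ^ N = 1
    rw [← Matrix.toLin'_pow, ← Matrix.transpose_pow, hA, Matrix.transpose_one, Matrix.toLin'_one]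
    rfl
  have hss : φ.IsSemisimple := by
    refine End.isSemisimple_of_squarefree_aeval_eq_zero (p := X ^ N - C 1) ?_ ?_
    · exact (separable_X_pow_sub_C (1 : ℂ) (by exact_mod_cast hN.ne') one_ne_zero).squarefree
    · simp [hφ]
  have htop := hss.iSup_eigenspace_eq_top
  let s : Set (Fin n → ℂ) := {v | ∃ μ : ℂ, φ v = μ • v}
  have hs : Submodule.span ℂ s = ⊤ := by
    rw [eq_top_iff, ← htop]
    refine iSup_le fun μ v hv => Submodule.subset_span ⟨μ, ?_⟩
    exact End.mem_eigenspace_iff.1 hv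
  obtain ⟨t, hts, htspan, hli⟩ := exists_linearIndependent ℂ s
  rw [hs] at htspan
  have hspan' : ⊤ ≤ Submodule.span ℂ (Set.range (Subtype.val : t → (Fin n → ℂ))) := by
    rw [Subtype.range_coe, htspan]
  let b : Basis t ℂ (Fin n → ℂ) := Basis.mk hli hspan'
  have : Fintype t := FiniteDimensional.fintypeBasisIndex b
  have hcard : Fintype.card t = n := by
    have h1 := Module.finrank_eq_card_basis b
    rw [Module.finrank_fin_fun] at h1
    exact h1.symm
  let e : t ≃ Fin n := Fintype.equivFinOfCardEq hcard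
  have hmem : ∀ i, ∃ μ : ℂ, φ ((e.symm i).1) = μ • (e.symm i).1 := fun i => hts (e.symm i).2
  choose d hd using hmem
  refine ⟨Matrix.of fun i => (e.symm i).1, d, ?_, ?_⟩
  · rw [← Matrix.linearIndependent_rows_iff_isUnit]
    exact hli.comp _ e.symm.injective
  · ext i k
    rw [Matrix.mul_apply, Matrix.diagonal_mul]
    have h1 := congrFun (hd i) k
    rw [Pi.smul_apply, smul_eq_mul] at h1
    rw [Matrix.of_apply, ← h1]
    change _ = (Matrix.toLin' A.transpose) (e.symm i).1 k
    rw [Matrix.toLin'_apply, Matrix.mulVec, dotProduct]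
    refine Finset.sum_congr rfl fun j _ => ?_
    rw [Matrix.transpose_apply, mul_comm]
    rfl

end Pool.Agent.Q135.TR
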