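import Mathlib

/-!
# Power series rings
-/

namespace Pool.Agent.Q135.TR

open IsLocalRing RingTheory.Sequence MvPowerSeries

variable {n : ℕ}

/-- the ring of power series -/
abbrev O (n : ℕ) : Type := MvPowerSeries (Fin n) ℂ

lemma coeff_of_mem_span (J : Set (Fin n)) {h : O n}
    (hh : h ∈ Ideal.span ((X : Fin n → O n) '' J)) :
    ∀ (m : Fin n →₀ ℕ), (∀ j ∈ J, m j = 0) → coeff m h = 0 := by
  induction hh using Submodule.span_induction with
  | mem x hx =>
    intro m hm
    obtain ⟨j, hj, rfl⟩ := hx
    exact (X_dvd_iff (s := j)).1 dvd_rfl m (hm j hj)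
  | zero => intro m hm; simp
  | add x y _ _ hx hy => intro m hm; rw [map_add, hx m hm, hy m hm, add_zero]
  | smul a x hx ih =>
    intro m hm
    rw [smul_eq_mul]
    classical
    rw [coeff_mul]
    refine Finset.sum_eq_zero fun p hp => ?_
    rw [Finset.HasAntidiagonal.mem_antidiagonal] at hp
    rw [ih p.2 (fun j hj => ?_), mul_zero]
    have h1 := hm j hj
    rw [← hp, Finsupp.add_apply] at h1
    omega

lemma mem_span_of_coeff (J : Finset (Fin n)) : ∀ (h : O n),
    (∀ m : Fin n →₀ ℕ, (∀ j ∈ J, m j = 0) → coeff m h = 0) →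
    h ∈ Ideal.span ((X : Fin n → O n) '' J) := by
  classical
  induction J using Finset.induction_on with
  | empty =>
    intro h hh
    have : h = 0 := by
      ext m
      simpa using hh m (by simp)
    rw [this]
    exact Submodule.zero_mem _
  | insert j J hj ih =>
    intro h hh
    let h' : O n := fun m => if m j = 0 then coeff m h else 0
    have hc : ∀ m, coeff m h' = if m j = 0 then coeff m h else 0 := fun m => rfl
    have h1 : h' ∈ Ideal.span ((X : Fin n → O n) '' J) := by
      apply ih
      intro m hm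
      rw [hc]
      split_ifs with hmj
      · apply hh
        intro i hi
        rcases Finset.mem_insert.1 hi with rfl | hi
        · exact hmj
        · exact hm i hi
      · rfl
    have h2 : (X j : O n) ∣ h - h' := by
      rw [X_dvd_iff]
      intro m hm
      rw [map_sub, hc, if_pos hm, sub_self]
    obtain ⟨g, hg⟩ := h2
    have h3 : h = h' + X j * g := by rw [← hg]; ring
    rw [h3]
    refine Submodule.add_mem _ (Ideal.span_mono (Set.image_mono (by simp)) h1) ?_
    rw [mul_comm]
    exact Ideal.mul_mem_left _ _ (Ideal.subset_span ⟨j, by simp, rfl⟩)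

lemma mem_max_iff (h : O n) : h ∈ maximalIdeal (O n) ↔ constantCoeff h = 0 := by
  rw [mem_maximalIdeal, mem_nonunits_iff, MvPowerSeries.isUnit_iff_constantCoeff,
    isUnit_iff_ne_zero, not_not]

lemma max_eq : maximalIdeal (O n) = Ideal.span (Set.range (X : Fin n → O n)) := by
  apply le_antisymm
  · intro h hh
    rw [mem_max_iff] at hh
    have h1 := mem_span_of_coeff (n := n) Finset.univ h (by
      intro m hm
      have : m = 0 := by
        ext j
        exact hm j (Finset.mem_univ j)
      rw [this]
      exact hh)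
    rwa [Finset.coe_univ, Set.image_univ] at h1
  · rw [Ideal.span_le]
    rintro _ ⟨i, rfl⟩
    change X i ∈ maximalIdeal (O n)
    rw [mem_max_iff, constantCoeff_X]

/-- The variables form a regular sequence. -/
lemma X_regular : IsWeaklyRegular (O n) (List.ofFn (X : Fin n → O n)) := by
  constructor
  intro i hi
  have hin : i < n := by simpa using hi
  have hI : (Ideal.ofList ((List.ofFn (X : Fin n → O n)).take i) • ⊤ : Submodule (O n) (O n)) =
      Ideal.span ((X : Fin n → O n) '' {j | j.1 < i}) := by
    rw [smul_eq_mul, Ideal.mul_top, Ideal.ofList]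
    congr 1
    ext x
    simp only [Set.mem_ofPred_eq, Set.mem_image, List.mem_iff_getElem, List.length_take,
      List.length_ofFn, List.getElem_take, List.getElem_ofFn]
    constructor
    · rintro ⟨k, hk, rfl⟩
      exact ⟨⟨k, by omega⟩, by simp; omega, rfl⟩
    · rintro ⟨j, hj, rfl⟩
      exact ⟨j.1, by omega, rfl⟩
  rw [isSMulRegular_iff_right_eq_zero_of_smul]
  intro x hx
  obtain ⟨x, rfl⟩ := Submodule.Quotient.mk_surjective _ x
  rw [← Submodule.Quotient.mk_smul, Submodule.Quotient.mk_eq_zero, hI] at hx
  rw [Submodule.Quotient.mk_eq_zero, hI]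
  rw [List.getElem_ofFn, smul_eq_mul] at hx
  have h1 := coeff_of_mem_span _ hx
  classical
  have h2 := mem_span_of_coeff (Finset.univ.filter fun j : Fin n => j.1 < i) x (by
    intro m hm
    have h3 := h1 (m + Finsupp.single ⟨i, hin⟩ 1) (by
      intro j hj
      have hj' : j.1 < i := hj
      have h4 := hm j (by simpa using hj')
      rw [Finsupp.add_apply, h4, zero_add, Finsupp.single_apply, if_neg]
      intro h5
      rw [← h5] at hj'
      exact lt_irrefl _ hj')
    rw [mul_comm, X, coeff_add_mul_monomial, mul_one] at h3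
    exact h3)
  simpa using h2

/-- a power series is a polynomial up to high powers of the maximal ideal -/
lemma approx (N : ℕ) : ∀ h : O n, ∃ p : MvPolynomial (Fin n) ℂ,
    h - (p : O n) ∈ maximalIdeal (O n) ^ N := by
  induction N with
  | zero => intro h; exact ⟨0, by simp⟩
  | succ N ih =>
    intro h
    have h1 : h - C (constantCoeff h) ∈ maximalIdeal (O n) := by
      rw [mem_max_iff, map_sub, constantCoeff_C, sub_self]
    rw [max_eq, Ideal.mem_span_range_iff_exists_fun] at h1
    obtain ⟨c, hc⟩ := h1
    choose p hp using fun i => ih (c i)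
    refine ⟨MvPolynomial.C (constantCoeff h) + ∑ i, p i * MvPolynomial.X i, ?_⟩
    have h2 : h - ((MvPolynomial.C (constantCoeff h) + ∑ i, p i * MvPolynomial.X i :
        MvPolynomial (Fin n) ℂ) : O n) = ∑ i, (c i - (p i : O n)) * X i := by
      have h3 : h = C (constantCoeff h) + ∑ i, c i * X i := by rw [hc]; ring
      conv_lhs => rw [h3]
      have h4 : ((∑ i, p i * MvPolynomial.X i : MvPolynomial (Fin n) ℂ) : O n) =
          ∑ i, (p i : O n) * X i := by
        have h5 : ∀ q : MvPolynomial (Fin n) ℂ,
            (q : O n) = MvPolynomial.coeToMvPowerSeries.ringHom q := fun q => rfl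
        rw [h5, map_sum]
        refine Finset.sum_congr rfl fun i _ => ?_
        rw [map_mul]
        change (p i : O n) * ((MvPolynomial.X i : MvPolynomial (Fin n) ℂ) : O n) = _
        rw [MvPolynomial.coe_X]
      rw [MvPolynomial.coe_add, MvPolynomial.coe_C, h4]
      simp only [sub_mul, Finset.sum_sub_distrib]
      simp
    rw [h2, pow_succ]
    refine Ideal.sum_mem _ fun i _ => Ideal.mul_mem_mul (hp i) ?_
    rw [mem_max_iff, constantCoeff_X]

/-- cofinite ideals contain powers of the maximal ideal -/
lemma pow_le (I : Ideal (O n)) (hI : Module.Finite ℂ (O n ⧸ I)) :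
    ∃ N, maximalIdeal (O n) ^ N ≤ I := by
  by_cases hI' : I = ⊤
  · exact ⟨0, by rw [hI']; exact le_top⟩
  have : Nontrivial (O n ⧸ I) := Ideal.Quotient.nontrivial_iff.2 hI'
  have : IsLocalRing (O n ⧸ I) :=
    IsLocalRing.of_surjective' (Ideal.Quotient.mk I) Ideal.Quotient.mk_surjective
  have hart : IsArtinianRing (O n ⧸ I) := isArtinian_of_tower ℂ inferInstance
  obtain ⟨N, hN⟩ := IsArtinianRing.isNilpotent_jacobson_bot (R := O n ⧸ I)
  refine ⟨N, ?_⟩
  have hloc : IsLocalHom (Ideal.Quotient.mk I) :=
    IsLocalHom.of_surjective (Ideal.Quotient.mk I) Ideal.Quotient.mk_surjective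
  have h1 : Ideal.map (Ideal.Quotient.mk I) (maximalIdeal (O n) ^ N) = ⊥ := by
    rw [Ideal.map_pow, eq_bot_iff]
    refine (Ideal.pow_right_mono (IsLocalRing.map_maximalIdeal_le (Ideal.Quotient.mk I)) N).trans ?_
    rw [← IsLocalRing.jacobson_eq_maximalIdeal (⊥ : Ideal (O n ⧸ I)) bot_ne_top, hN]
    exact le_rfl
  intro x hx
  have h2 := Ideal.mem_map_of_mem (Ideal.Quotient.mk I) hx
  rw [h1, Ideal.mem_bot, Ideal.Quotient.eq_zero_iff_mem] at h2
  exact h2

/-- the dimension of a finite-dimensional algebra -/
lemma dim_le_zero (I : Ideal (O n)) (hI : Module.Finite ℂ (O n ⧸ I)) :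
    ringKrullDim (O n ⧸ I) ≤ 0 := by
  have hart : IsArtinianRing (O n ⧸ I) := isArtinian_of_tower ℂ inferInstance
  have h : Ring.KrullDimLE 0 (O n ⧸ I) := inferInstance
  exact h.krullDim_le

end Pool.Agent.Q135.TR
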