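import Mathlib
import Pool.Agent.Q135.TR.PS

/-!
# Linear substitutions in power series
-/

namespace Pool.Agent.Q135.TR

open IsLocalRing MvPowerSeries

variable {n : ℕ}

/-- linear forms -/
noncomputable def lin (A : Matrix (Fin n) (Fin n) ℂ) (i : Fin n) : O n :=
  ∑ j, A i j • (X j : O n)

lemma constantCoeff_smul' (c : ℂ) (h : O n) : constantCoeff (c • h) = c * constantCoeff h := by
  rw [← coeff_zero_eq_constantCoeff_apply, ← coeff_zero_eq_constantCoeff_apply, coeff_smul]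

lemma constantCoeff_lin (A : Matrix (Fin n) (Fin n) ℂ) (i : Fin n) :
    constantCoeff (lin A i) = 0 := by
  unfold lin
  rw [map_sum]
  refine Finset.sum_eq_zero fun j _ => ?_
  rw [constantCoeff_smul', constantCoeff_X, mul_zero]

lemma hasSubst_lin (A : Matrix (Fin n) (Fin n) ℂ) : HasSubst (lin A) :=
  hasSubst_of_constantCoeff_zero (constantCoeff_lin A)

/-- the substitution -/
noncomputable def sig (A : Matrix (Fin n) (Fin n) ℂ) : O n →ₐ[ℂ] O n :=
  substAlgHom (hasSubst_lin A)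

lemma sig_X (A : Matrix (Fin n) (Fin n) ℂ) (i : Fin n) : sig A (X i) = lin A i :=
  substAlgHom_X _ i

lemma sig_coe (A : Matrix (Fin n) (Fin n) ℂ) (p : MvPolynomial (Fin n) ℂ) :
    sig A (p : O n) = ((MvPolynomial.aeval (fun j : Fin n =>
      ∑ k : Fin n, A j k • (MvPolynomial.X k : MvPolynomial (Fin n) ℂ)) p :
      MvPolynomial (Fin n) ℂ) : O n) := by
  let c : MvPolynomial (Fin n) ℂ →ₐ[ℂ] O n := MvPolynomial.coeToMvPowerSeries.algHom ℂ
  have hc : ∀ q, c q = (q : O n) := by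
    intro q
    simp [c]
  have h : (sig A).comp c = c.comp (MvPolynomial.aeval (fun j : Fin n =>
      ∑ k : Fin n, A j k • (MvPolynomial.X k : MvPolynomial (Fin n) ℂ))) := by
    apply MvPolynomial.algHom_ext
    intro i
    rw [AlgHom.comp_apply, AlgHom.comp_apply, MvPolynomial.aeval_X, map_sum, hc,
      MvPolynomial.coe_X, sig_X, lin]
    refine Finset.sum_congr rfl fun j _ => ?_
    rw [map_smul, hc, MvPolynomial.coe_X]
  have := DFunLike.congr_fun h p
  rw [AlgHom.comp_apply, AlgHom.comp_apply, hc, hc] at this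
  exact this

lemma sig_mem (A : Matrix (Fin n) (Fin n) ℂ) (h : O n) (hh : h ∈ maximalIdeal (O n)) :
    sig A h ∈ maximalIdeal (O n) := by
  rw [max_eq, Ideal.mem_span_range_iff_exists_fun] at hh
  obtain ⟨c, rfl⟩ := hh
  rw [map_sum]
  refine Ideal.sum_mem _ fun i _ => ?_
  rw [map_mul, sig_X]
  apply Ideal.mul_mem_left
  rw [mem_max_iff, constantCoeff_lin]

lemma sig_mem_pow (A : Matrix (Fin n) (Fin n) ℂ) (N : ℕ) (h : O n)
    (hh : h ∈ maximalIdeal (O n) ^ N) : sig A h ∈ maximalIdeal (O n) ^ N := by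
  have h1 : Ideal.map (sig A) (maximalIdeal (O n)) ≤ maximalIdeal (O n) := by
    rw [Ideal.map_le_iff_le_comap]
    intro x hx
    exact sig_mem A x hx
  have h2 := Ideal.mem_map_of_mem (sig A) hh
  rw [Ideal.map_pow] at h2
  exact Ideal.pow_right_mono h1 N h2

/-- algebra maps which kill a power of the maximal ideal are determined by the variables -/
lemma algHom_eq {Q : Type} [CommRing Q] [Algebra ℂ Q] (φ ψ : O n →ₐ[ℂ] Q) (N : ℕ)
    (hφ : ∀ x ∈ maximalIdeal (O n) ^ N, φ x = 0) (hψ : ∀ x ∈ maximalIdeal (O n) ^ N, ψ x = 0)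
    (h : ∀ i, φ (X i) = ψ (X i)) : φ = ψ := by
  let c : MvPolynomial (Fin n) ℂ →ₐ[ℂ] O n := MvPolynomial.coeToMvPowerSeries.algHom ℂ
  have hc : ∀ q, c q = (q : O n) := by
    intro q
    simp [c]
  have h1 : φ.comp c = ψ.comp c := by
    apply MvPolynomial.algHom_ext
    intro i
    rw [AlgHom.comp_apply, AlgHom.comp_apply, hc, MvPolynomial.coe_X, h]
  ext x
  obtain ⟨p, hp⟩ := approx N x
  have h2 := hφ _ hp
  have h3 := hψ _ hp
  have h4 := DFunLike.congr_fun h1 p
  rw [AlgHom.comp_apply, AlgHom.comp_apply, hc] at h4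
  rw [map_sub, sub_eq_zero] at h2 h3
  rw [h2, h3, h4]

/-- `σ p - p` for polynomials -/
lemma sig_sub_mem (A : Matrix (Fin n) (Fin n) ℂ) (J : Ideal (O n))
    (hJ : ∀ i, lin (A - 1) i ∈ J) (p : MvPolynomial (Fin n) ℂ) :
    sig A (p : O n) - (p : O n) ∈ J := by
  let c : MvPolynomial (Fin n) ℂ →ₐ[ℂ] O n := MvPolynomial.coeToMvPowerSeries.algHom ℂ
  have hc : ∀ q, c q = (q : O n) := by
    intro q
    simp [c]
  have h1 : (Ideal.Quotient.mkₐ ℂ J).comp ((sig A).comp c) = (Ideal.Quotient.mkₐ ℂ J).comp c := by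
    apply MvPolynomial.algHom_ext
    intro i
    rw [AlgHom.comp_apply, AlgHom.comp_apply, AlgHom.comp_apply, hc, MvPolynomial.coe_X, sig_X,
      Ideal.Quotient.mkₐ_eq_mk, Ideal.Quotient.eq]
    have h2 : lin A i - X i = lin (A - 1) i := by
      unfold lin
      simp only [Matrix.sub_apply, sub_smul, Finset.sum_sub_distrib, Matrix.one_apply, ite_smul,
        one_smul, zero_smul, Finset.sum_ite_eq, Finset.mem_univ, if_true]
    rw [h2]
    exact hJ i
  have h3 := DFunLike.congr_fun h1 p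
  rw [AlgHom.comp_apply, AlgHom.comp_apply, AlgHom.comp_apply, hc, Ideal.Quotient.mkₐ_eq_mk,
    Ideal.Quotient.eq] at h3
  exact h3

end Pool.Agent.Q135.TR
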