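import Mathlib
import Pool.Agent.Q135.TR.Cons
import Pool.Agent.Q135.TR.CM
import Pool.Agent.Q135.TR.Sub
import Pool.Agent.Q135.TR.Diag

/-!
# The trace formula
-/

namespace Pool.Agent.Q135.TR

open IsLocalRing RingTheory.Sequence MvPowerSeries Function
open scoped Pointwise

variable {n : ℕ}

/-- the ring as an object -/
noncomputable def OO (A : Matrix (Fin n) (Fin n) ℂ) : Ob (sig A) where
  M := O n
  T := { toFun := sig A
         map_add' := map_add _
         map_smul' := fun r x => by
          rw [smul_eq_mul, map_mul]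
          rfl }

/-- quotient rings as objects -/
noncomputable def algOb (A : Matrix (Fin n) (Fin n) ℂ) (I : Ideal (O n))
    (T : (O n ⧸ I) →ₐ[ℂ] (O n ⧸ I))
    (hT : ∀ x : O n, T (Ideal.Quotient.mk I x) = Ideal.Quotient.mk I (sig A x)) : Ob (sig A) where
  M := O n ⧸ I
  T := { toFun := T
         map_add' := map_add _
         map_smul' := fun r x => by
          obtain ⟨x, rfl⟩ := Ideal.Quotient.mk_surjective x
          change T (Ideal.Quotient.mk I (r * x)) =
            Ideal.Quotient.mk I (sig A r) * T (Ideal.Quotient.mk I x)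
          rw [hT, hT, map_mul, map_mul] }

lemma algOb_tr (A : Matrix (Fin n) (Fin n) ℂ) (I : Ideal (O n))
    (T : (O n ⧸ I) →ₐ[ℂ] (O n ⧸ I))
    (hT : ∀ x : O n, T (Ideal.Quotient.mk I x) = Ideal.Quotient.mk I (sig A x)) :
    (algOb A I T hT).tr = LinearMap.trace ℂ (O n ⧸ I) T.toLinearMap := rfl

/-- linear combinations -/
noncomputable def comb (P : Matrix (Fin n) (Fin n) ℂ) (v : Fin n → O n) (i : Fin n) : O n :=
  ∑ j, P i j • v j

lemma lin_eq (A : Matrix (Fin n) (Fin n) ℂ) (i : Fin n) : lin A i = comb A X i := rfl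

lemma comb_comb (P Q : Matrix (Fin n) (Fin n) ℂ) (v : Fin n → O n) (i : Fin n) :
    comb P (comb Q v) i = comb (P * Q) v i := by
  unfold comb
  simp only [Finset.smul_sum, smul_smul, Matrix.mul_apply, Finset.sum_smul]
  rw [Finset.sum_comm]

lemma comb_diagonal (d : Fin n → ℂ) (v : Fin n → O n) (i : Fin n) :
    comb (Matrix.diagonal d) v i = d i • v i := by
  unfold comb
  rw [Finset.sum_eq_single i]
  · rw [Matrix.diagonal_apply_eq]
  · intro j _ hj
    rw [Matrix.diagonal_apply_ne _ hj.symm, zero_smul]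
  · intro h
    exact absurd (Finset.mem_univ i) h

lemma comb_one (v : Fin n → O n) : comb 1 v = v := by
  ext1 i
  rw [← Matrix.diagonal_one, comb_diagonal, one_smul]

lemma comb_mem {P : Matrix (Fin n) (Fin n) ℂ} {v : Fin n → O n} {I : Ideal (O n)}
    (h : ∀ i, v i ∈ I) (i : Fin n) : comb P v i ∈ I :=
  Ideal.sum_mem _ fun j _ => Submodule.smul_of_tower_mem I (P i j) (h j)

lemma span_comb (P : Matrix (Fin n) (Fin n) ℂ) (hP : IsUnit P) (v : Fin n → O n) :
    Ideal.span (Set.range (comb P v)) = Ideal.span (Set.range v) := by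
  apply le_antisymm
  · rw [Ideal.span_le]
    rintro _ ⟨i, rfl⟩
    exact comb_mem (fun i => Ideal.subset_span (Set.mem_range_self i)) i
  · rw [Ideal.span_le]
    rintro _ ⟨i, rfl⟩
    obtain ⟨u, rfl⟩ := hP
    have h1 : v i = comb (↑u⁻¹ : Matrix (Fin n) (Fin n) ℂ) (comb (u : Matrix (Fin n) (Fin n) ℂ) v) i := by
      rw [comb_comb, Units.inv_mul, comb_one]
    rw [h1]
    exact comb_mem (fun i => Ideal.subset_span (Set.mem_range_self i)) i

lemma comb_eig {A P : Matrix (Fin n) (Fin n) ℂ} {d : Fin n → ℂ}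
    (hPA : P * A = Matrix.diagonal d * P) {v : Fin n → O n}
    (hv : ∀ i, sig A (v i) = comb A v i) (i : Fin n) :
    sig A (comb P v i) = algebraMap ℂ (O n) (d i) * comb P v i := by
  have h1 : sig A (comb P v i) = comb P (comb A v) i := by
    unfold comb
    rw [map_sum]
    refine Finset.sum_congr rfl fun j _ => ?_
    rw [map_smul, hv]
    rfl
  rw [h1, comb_comb, hPA, ← comb_comb, comb_diagonal, Algebra.smul_def]

/-- eigenvectors -/
noncomputable def eig {A P : Matrix (Fin n) (Fin n) ℂ} {d : Fin n → ℂ}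
    (hPA : P * A = Matrix.diagonal d * P) {v : Fin n → O n}
    (hv : ∀ i, sig A (v i) = comb A v i) (i : Fin n) : Eig (sig A) :=
  ⟨comb P v i, d i, comb_eig hPA hv i⟩

theorem trace_formula (A : Matrix (Fin n) (Fin n) ℂ) (N : ℕ) (hN : 0 < N) (hA : A ^ N = 1)
    (f : Fin n → MvPolynomial (Fin n) ℂ) (v : Fin n → O n) (hvf : ∀ i, v i = (f i : O n))
    (hf : ∀ i, sig A (v i) = comb A v i)
    (hf0 : ∀ i, MvPolynomial.constantCoeff (f i) = 0) (I Z : Ideal (O n))
    (hI : I = Ideal.span (Set.range v))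
    (hZ : Z = Ideal.span (Set.range v ∪ Set.range (comb (A - 1) (X : Fin n → O n))))
    (hfin : Module.Finite ℂ (O n ⧸ I))
    (T : (O n ⧸ I) →ₐ[ℂ] (O n ⧸ I))
    (hT : ∀ i, T (Ideal.Quotient.mk I (X i)) = Ideal.Quotient.mk I (comb A X i)) :
    LinearMap.trace ℂ (O n ⧸ I) T.toLinearMap = (Module.finrank ℂ (O n ⧸ Z) : ℂ) := by
  classical
  set w : Fin n → O n := comb (A - 1) X with hw
  obtain ⟨P, d, hP, hPA⟩ := exists_diag A N hN hA
  have hvm : ∀ i, v i ∈ maximalIdeal (O n) := by
    intro i
    rw [mem_max_iff, hvf]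
    have : constantCoeff ((f i : O n)) = MvPolynomial.constantCoeff (f i) := by
      rw [← coeff_zero_eq_constantCoeff_apply, MvPolynomial.coeff_coe,
        MvPolynomial.constantCoeff_eq]
    rw [this, hf0]
  have hXm : ∀ i, (X i : O n) ∈ maximalIdeal (O n) := by
    intro i
    rw [mem_max_iff, constantCoeff_X]
  -- the endomorphisms of the quotients
  obtain ⟨k, hk⟩ := pow_le I hfin
  have hTall : ∀ x, T (Ideal.Quotient.mk I x) = Ideal.Quotient.mk I (sig A x) := by
    have h1 : T.comp (Ideal.Quotient.mkₐ ℂ I) = (Ideal.Quotient.mkₐ ℂ I).comp (sig A) := by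
      refine algHom_eq _ _ k ?_ ?_ ?_
      · intro x hx
        rw [AlgHom.comp_apply, Ideal.Quotient.mkₐ_eq_mk, Ideal.Quotient.eq_zero_iff_mem.2 (hk hx),
          map_zero]
      · intro x hx
        rw [AlgHom.comp_apply, Ideal.Quotient.mkₐ_eq_mk, Ideal.Quotient.eq_zero_iff_mem]
        exact hk (sig_mem_pow A k x hx)
      · intro i
        rw [AlgHom.comp_apply, AlgHom.comp_apply, sig_X]
        exact hT i
    intro x
    exact DFunLike.congr_fun h1 x
  have hIZ : I ≤ Z := by
    rw [hI, hZ]
    exact Ideal.span_mono Set.subset_union_left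
  have hwZ : ∀ i, w i ∈ Z := fun i => by
    rw [hZ]
    exact Ideal.subset_span (Or.inr (Set.mem_range_self i))
  have hZall : ∀ x, (AlgHom.id ℂ (O n ⧸ Z)) (Ideal.Quotient.mk Z x) =
      Ideal.Quotient.mk Z (sig A x) := by
    have h1 : (Ideal.Quotient.mkₐ ℂ Z) = (Ideal.Quotient.mkₐ ℂ Z).comp (sig A) := by
      refine algHom_eq _ _ k ?_ ?_ ?_
      · intro x hx
        rw [Ideal.Quotient.mkₐ_eq_mk, Ideal.Quotient.eq_zero_iff_mem]
        exact hIZ (hk hx)
      · intro x hx
        rw [AlgHom.comp_apply, Ideal.Quotient.mkₐ_eq_mk, Ideal.Quotient.eq_zero_iff_mem]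
        exact hIZ (hk (sig_mem_pow A k x hx))
      · intro i
        rw [AlgHom.comp_apply, sig_X, Ideal.Quotient.mkₐ_eq_mk, eq_comm, Ideal.Quotient.eq]
        have h2 : lin A i - X i = w i := by
          rw [hw]
          unfold lin comb
          simp only [Matrix.sub_apply, sub_smul, Finset.sum_sub_distrib, Matrix.one_apply, ite_smul,
            one_smul, zero_smul, Finset.sum_ite_eq, Finset.mem_univ, if_true]
        rw [h2]
        exact hwZ i
    intro x
    exact DFunLike.congr_fun h1 x
  -- eigenvectors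
  have hXeig : ∀ i, sig A ((X : Fin n → O n) i) = comb A X i := sig_X A
  let l : Fin n → Eig (sig A) := eig hPA hXeig
  let e : Fin n → Eig (sig A) := eig hPA hf
  let L0 : List (Fin n) := (List.finRange n).filter (fun i => d i ≠ 1)
  let L1 : List (Fin n) := (List.finRange n).filter (fun i => ¬ (d i ≠ 1))
  have hL0 : ∀ i, i ∈ L0 ↔ d i ≠ 1 := by intro i; simp [L0]
  have hL1 : ∀ i, i ∈ L1 ↔ d i = 1 := by intro i; simp [L1]
  have hlen : (L0 ++ L1).length = n := by
    rw [List.length_append]
    have h1 : (L0.length + L1.length) = (List.finRange n).length := by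
      simp only [L0, L1, ← List.countP_eq_length_filter]
      rw [List.length_eq_countP_add_countP (fun i => decide (d i ≠ 1)) (l := List.finRange n)]
      congr 2
      ext i
      simp
    rw [h1, List.length_finRange]
  let ls : List (Eig (sig A)) := L0.map l
  let ls1 : List (Eig (sig A)) := L1.map l
  let ns : List (Eig (sig A)) := L0.map e
  let fs : List (Eig (sig A)) := L1.map e
  -- the ideals
  have hspan : ∀ u : Fin n → O n, Ideal.ofList ((L0 ++ L1).map (comb P u)) =
      Ideal.span (Set.range u) := by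
    intro u
    rw [← span_comb P hP u, Ideal.ofList]
    congr 1
    ext x
    simp only [Set.mem_ofPred_eq, List.mem_map, Set.mem_range]
    constructor
    · rintro ⟨i, -, rfl⟩
      exact ⟨i, rfl⟩
    · rintro ⟨i, rfl⟩
      refine ⟨i, ?_, rfl⟩
      rw [List.mem_append, hL0, hL1]
      exact (em (d i = 1)).symm
  have hlsf : ls.map Eig.f = L0.map (comb P X) := by
    simp only [ls, List.map_map]
    rfl
  have hls1f : ls1.map Eig.f = L1.map (comb P X) := by
    simp only [ls1, List.map_map]
    rfl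
  have hnsf : ns.map Eig.f = L0.map (comb P v) := by
    simp only [ns, List.map_map]
    rfl
  have hfsf : fs.map Eig.f = L1.map (comb P v) := by
    simp only [fs, List.map_map]
    rfl
  have hesf : (ns ++ fs).map Eig.f = (L0 ++ L1).map (comb P v) := by
    rw [List.map_append, hnsf, hfsf, List.map_append]
  let J : Ideal (O n) := Ideal.ofList (L0.map (comb P X))
  have hPw : ∀ i, comb P w i = (d i - 1) • comb P X i := by
    intro i
    rw [hw, comb_comb, mul_sub, hPA, mul_one]
    have h1 : comb (Matrix.diagonal d * P - P) (X : Fin n → O n) i =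
        comb (Matrix.diagonal d * P) X i - comb P X i := by
      unfold comb
      simp only [Matrix.sub_apply, sub_smul, Finset.sum_sub_distrib]
    rw [h1, ← comb_comb, comb_diagonal, sub_smul, one_smul]
  have hJw : J = Ideal.span (Set.range w) := by
    rw [← span_comb P hP w]
    apply le_antisymm
    · change Ideal.span _ ≤ _
      rw [Ideal.span_le]
      intro x hx
      rw [Set.mem_ofPred_eq, List.mem_map] at hx
      obtain ⟨i, hi, rfl⟩ := hx
      have hdi : d i - 1 ≠ 0 := sub_ne_zero.2 ((hL0 i).1 hi)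
      have h1 : comb P X i = (d i - 1)⁻¹ • comb P w i := by
        rw [hPw, smul_smul, inv_mul_cancel₀ hdi, one_smul]
      rw [h1]
      exact Submodule.smul_of_tower_mem _ _ (Ideal.subset_span (Set.mem_range_self i))
    · rw [Ideal.span_le]
      rintro _ ⟨i, rfl⟩
      rw [hPw]
      by_cases hi : d i = 1
      · rw [hi, sub_self, zero_smul]
        exact Ideal.zero_mem _
      · refine Submodule.smul_of_tower_mem _ _ (Ideal.subset_span ?_)
        rw [Set.mem_ofPred_eq, List.mem_map]
        exact ⟨i, (hL0 i).2 hi, rfl⟩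
  have hwJ : ∀ i, w i ∈ J := fun i => by
    rw [hJw]
    exact Ideal.subset_span (Set.mem_range_self i)
  have heJ : ∀ i ∈ L0, comb P v i ∈ J := by
    intro i hi
    have hdi : d i - 1 ≠ 0 := sub_ne_zero.2 ((hL0 i).1 hi)
    have h1 : sig A (comb P v i) - comb P v i ∈ J := by
      have h2 : sig A (comb P v i) - comb P v i = comb P (fun j => sig A (v j) - v j) i := by
        unfold comb
        rw [map_sum, ← Finset.sum_sub_distrib]
        refine Finset.sum_congr rfl fun j _ => ?_
        rw [map_smul, smul_sub]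
      rw [h2]
      refine comb_mem (fun j => ?_) i
      rw [hvf j]
      exact sig_sub_mem A J hwJ (f j)
    rw [comb_eig hPA hf i, ← Algebra.smul_def] at h1
    have h3 : comb P v i = (d i - 1)⁻¹ • (d i • comb P v i - comb P v i) := by
      have h4 : d i • comb P v i - comb P v i = (d i - 1) • comb P v i := by
        rw [sub_smul, one_smul]
      rw [h4, smul_smul, inv_mul_cancel₀ hdi, one_smul]
    rw [h3]
    exact Submodule.smul_of_tower_mem _ _ h1
  have hofI : Ideal.ofList ((L0 ++ L1).map (comb P v)) = I := by rw [hspan, hI]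
  have hZJ : Z = J ⊔ Ideal.ofList (L1.map (comb P v)) := by
    rw [hZ, Ideal.span_union, ← hJw, ← hI, ← hofI, List.map_append, Ideal.ofList_append]
    apply le_antisymm
    · refine sup_le (sup_le (le_sup_of_le_left ?_) le_sup_right) le_sup_left
      change Ideal.span _ ≤ _
      rw [Ideal.span_le]
      intro x hx
      rw [Set.mem_ofPred_eq, List.mem_map] at hx
      obtain ⟨i, hi, rfl⟩ := hx
      exact heJ i hi
    · exact sup_le le_sup_right (le_sup_of_le_left le_sup_right)
  have hJZ : J ≤ Z := by rw [hZJ]; exact le_sup_left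
  have hJm : J ≤ maximalIdeal (O n) := by
    rw [hJw, Ideal.span_le]
    rintro _ ⟨i, rfl⟩
    exact comb_mem hXm i
  have hJst : J ≤ J.comap (sig A) := by
    change Ideal.span _ ≤ _
    rw [Ideal.span_le]
    intro x hx
    rw [Set.mem_ofPred_eq, List.mem_map] at hx
    obtain ⟨i, hi, rfl⟩ := hx
    change sig A (comb P X i) ∈ J
    rw [comb_eig hPA hXeig i]
    refine Ideal.mul_mem_left _ _ (Ideal.subset_span ?_)
    rw [Set.mem_ofPred_eq, List.mem_map]
    exact ⟨i, hi, rfl⟩
  let TJ : (O n ⧸ J) →ₐ[ℂ] (O n ⧸ J) := Ideal.quotientMapₐ J (sig A) hJst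
  let Y : Ob (sig A) := algOb A J TJ (fun x => rfl)
  let W : Ob (sig A) := algOb A I T hTall
  let Zo : Ob (sig A) := algOb A Z (AlgHom.id ℂ (O n ⧸ Z)) hZall
  -- the homomorphisms
  let φY : Hm (OO A) Y := ⟨Algebra.linearMap (O n) (O n ⧸ J), fun x => rfl⟩
  let φW : Hm (OO A) W := ⟨Algebra.linearMap (O n) (O n ⧸ I), fun x => (hTall x).symm⟩
  let φZ : Hm Y Zo := ⟨(Ideal.Quotient.factorₐ (O n) hJZ).toLinearMap, fun x => by
    obtain ⟨x, rfl⟩ := Ideal.Quotient.mk_surjective x
    exact (hZall x).symm⟩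
  -- regular sequences
  have hnt : Nontrivial (O n) := inferInstance
  have hregX : IsRegular (O n) (List.ofFn (X : Fin n → O n)) := by
    rw [IsLocalRing.isRegular_iff_isWeaklyRegular_of_subset_maximalIdeal]
    · exact X_regular
    · intro r hr
      rw [List.mem_ofFn] at hr
      obtain ⟨i, rfl⟩ := hr
      exact hXm i
  have hdim : ∀ K : Ideal (O n), I ≤ K → ringKrullDim (O n ⧸ K) ≤ 0 := by
    intro K hK
    apply dim_le_zero
    exact Module.Finite.of_surjective (Ideal.Quotient.factorₐ ℂ hK).toLinearMap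
      (Ideal.Quotient.factor_surjective hK)
  have hIX : I ≤ Ideal.span (Set.range (X : Fin n → O n)) := by
    rw [hI, Ideal.span_le, ← max_eq]
    rintro _ ⟨i, rfl⟩
    exact hvm i
  have hreg : ∀ u : Fin n → O n, (∀ i, u i ∈ maximalIdeal (O n)) →
      I ≤ Ideal.span (Set.range u) → IsWeaklyRegular (O n) ((L0 ++ L1).map (comb P u)) := by
    intro u hu hIu
    refine regular_of_dim n (O n) (List.ofFn (X : Fin n → O n)) (by simp) ?_ hregX _
      (by rw [List.length_map, hlen]) ?_ ?_
    · intro r hr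
      rw [List.mem_ofFn] at hr
      obtain ⟨i, rfl⟩ := hr
      exact hXm i
    · intro b hb
      rw [List.mem_map] at hb
      obtain ⟨i, -, rfl⟩ := hb
      exact comb_mem hu i
    · apply hdim
      rw [hspan]
      exact hIu.trans le_sup_right
  have hregl := hreg X hXm hIX
  have hrege := hreg v hvm hI.le
  rw [List.map_append, isWeaklyRegular_append_iff] at hregl
  have hJtop : (Ideal.ofList (L0.map (comb P X)) • ⊤ : Submodule (O n) (O n)) = J := by
    rw [smul_eq_mul, Ideal.mul_top]
  have hregY1 : IsWeaklyRegular (O n ⧸ J) (L1.map (comb P X)) :=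
    ((Submodule.quotEquivOfEq _ _ hJtop).isWeaklyRegular_congr _).1 hregl.2
  have hntJ : Nontrivial (O n ⧸ J) := by
    rw [Ideal.Quotient.nontrivial_iff]
    intro h
    rw [h, top_le_iff] at hJm
    exact (maximalIdeal.isMaximal (O n)).ne_top hJm
  have hregY : IsWeaklyRegular (O n ⧸ J) (L1.map (comb P v)) := by
    have h1 : IsRegular (O n ⧸ J) (L1.map (comb P X)) := by
      rw [IsLocalRing.isRegular_iff_isWeaklyRegular_of_subset_maximalIdeal]
      · exact hregY1
      · intro r hr
        rw [List.mem_map] at hr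
        obtain ⟨i, -, rfl⟩ := hr
        exact comb_mem hXm i
    refine regular_of_dim L1.length (O n ⧸ J) (L1.map (comb P X)) (by simp) ?_ h1 _ (by simp) ?_ ?_
    · intro r hr
      rw [List.mem_map] at hr
      obtain ⟨i, -, rfl⟩ := hr
      exact comb_mem hXm i
    · intro r hr
      rw [List.mem_map] at hr
      obtain ⟨i, -, rfl⟩ := hr
      exact comb_mem hvm i
    · apply hdim
      refine hIZ.trans ?_
      rw [hZJ, Ideal.annihilator_quotient]
  -- finiteness
  have hspanlist : ∀ (E : List (Eig (sig A))), Ideal.span {r | ∃ e ∈ E, e.f = r} =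
      Ideal.ofList (E.map Eig.f) := by
    intro E
    rw [Ideal.ofList]
    congr 1
    ext x
    simp only [Set.mem_ofPred_eq, List.mem_map]
  have hfinK : ∀ K : Ideal (O n), I ≤ K → Module.Finite ℂ (O n ⧸ K) := by
    intro K hK
    exact Module.Finite.of_surjective (Ideal.Quotient.factorₐ ℂ hK).toLinearMap
      (Ideal.Quotient.factor_surjective hK)
  have hgO : Good (ns ++ fs) (OO A) := by
    refine ⟨inferInstanceAs (Module.Finite (O n) (O n)), ?_⟩
    apply hfinK
    rw [hspanlist, hesf, hofI]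
    exact le_sup_right
  have hgY : Good (ns ++ fs) Y := by
    refine ⟨inferInstanceAs (Module.Finite (O n) (O n ⧸ J)), ?_⟩
    apply hfinK
    rw [hspanlist, hesf, hofI]
    exact le_sup_right
  have hgY' : Good fs Y := by
    refine ⟨inferInstanceAs (Module.Finite (O n) (O n ⧸ J)), ?_⟩
    apply hfinK
    rw [hspanlist, hfsf]
    have h1 : Module.annihilator (O n) Y.M = J := Ideal.annihilator_quotient
    rw [h1, ← hZJ]
    exact hIZ
  -- kernels
  have hkY : LinearMap.ker φY.φ = Ideal.ofList (ls.map Eig.f) • (⊤ : Submodule (O n) (OO A).M) := by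
    rw [hlsf]
    change _ = (Ideal.ofList (L0.map (comb P X)) • ⊤ : Submodule (O n) (O n))
    rw [hJtop]
    ext x
    exact Ideal.Quotient.eq_zero_iff_mem
  have hkW : LinearMap.ker φW.φ = Ideal.ofList ((ns ++ fs).map Eig.f) •
      (⊤ : Submodule (O n) (OO A).M) := by
    rw [hesf, hofI]
    change _ = (I • ⊤ : Submodule (O n) (O n))
    rw [smul_eq_mul, Ideal.mul_top]
    ext x
    exact Ideal.Quotient.eq_zero_iff_mem
  have hkZ : LinearMap.ker φZ.φ = Ideal.ofList (fs.map Eig.f) • (⊤ : Submodule (O n) Y.M) := by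
    rw [hfsf]
    apply le_antisymm
    · intro x hx
      obtain ⟨y, rfl⟩ := Ideal.Quotient.mk_surjective x
      have h1 : y ∈ Z := Ideal.Quotient.eq_zero_iff_mem.1 hx
      rw [hZJ] at h1
      obtain ⟨a, ha, b, hb, rfl⟩ := Submodule.mem_sup.1 h1
      have h2 : Ideal.Quotient.mk J (a + b) = b • (Ideal.Quotient.mk J 1) := by
        change Ideal.Quotient.mk J (a + b) = Ideal.Quotient.mk J (b * 1)
        rw [map_add, Ideal.Quotient.eq_zero_iff_mem.2 ha, zero_add, mul_one]
      have h3 : b • (Ideal.Quotient.mk J 1) ∈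
          (Ideal.ofList (L1.map (comb P v)) • ⊤ : Submodule (O n) (O n ⧸ J)) :=
        Submodule.smul_mem_smul hb Submodule.mem_top
      rw [← h2] at h3
      exact h3
    · refine Submodule.smul_le.2 ?_
      intro r hr x _
      obtain ⟨y, rfl⟩ := Ideal.Quotient.mk_surjective x
      have h1 : r * y ∈ Z := by
        apply Ideal.mul_mem_right
        rw [hZJ]
        exact Ideal.mem_sup_right hr
      exact Ideal.Quotient.eq_zero_iff_mem.2 h1
  have hsY : Surjective φY.φ := fun y => by
    obtain ⟨x, hx⟩ := Ideal.Quotient.mk_surjective (I := J) y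
    exact ⟨x, hx⟩
  have hsW : Surjective φW.φ := fun y => by
    obtain ⟨x, hx⟩ := Ideal.Quotient.mk_surjective (I := I) y
    exact ⟨x, hx⟩
  have hfZ : Module.Finite ℂ (O n ⧸ Z) := hfinK Z hIZ
  -- the computation
  have c1 : F (ns ++ fs) Y = (ls.map fun l => 1 - l.c).prod * F (ns ++ fs) (OO A) := by
    refine F_regular_seq (ns ++ fs) ls (OO A) Y φY hsY hkY ?_ hgO
    rw [hlsf]
    exact hregl.1
  have c2 : F (ns ++ fs) Y = (ns.map fun e => 1 - e.c).prod * F fs Y := by
    refine F_append_zero ns fs Y ?_ hgY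
    intro e' he' x
    obtain ⟨y, rfl⟩ := Ideal.Quotient.mk_surjective x
    rw [List.mem_map] at he'
    obtain ⟨i, hi, rfl⟩ := he'
    exact Ideal.Quotient.eq_zero_iff_mem.2 (Ideal.mul_mem_right _ _ (heJ i hi))
  have c3 : F (ns ++ fs) (OO A) = W.tr := by
    refine F_eq_trace (ns ++ fs) (OO A) W φW hsW hkW ?_ hgO
    rw [hesf]
    exact hrege
  have c4 : F fs Y = Zo.tr := by
    refine F_eq_trace fs Y Zo φZ (Ideal.Quotient.factor_surjective hJZ) hkZ ?_ hgY'
    rw [hfsf]
    exact hregY
  have p1 : (ls.map fun l => 1 - l.c) = L0.map (fun i => 1 - d i) := by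
    simp only [ls, List.map_map]
    rfl
  have p2 : (ns.map fun l => 1 - l.c) = L0.map (fun i => 1 - d i) := by
    simp only [ns, List.map_map]
    rfl
  have hne : (L0.map (fun i => 1 - d i)).prod ≠ 0 := by
    apply List.prod_ne_zero
    intro h0
    rw [List.mem_map] at h0
    obtain ⟨i, hi, h1⟩ := h0
    exact (hL0 i).1 hi (sub_eq_zero.1 h1).symm
  have c5 : F (ns ++ fs) (OO A) = F fs Y := by
    rw [c2, p1, p2] at c1
    exact (mul_left_cancel₀ hne c1).symm
  have c6 : W.tr = Zo.tr := by rw [← c3, ← c4, c5]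
  have c7 : Zo.tr = (Module.finrank ℂ (O n ⧸ Z) : ℂ) := by
    change LinearMap.trace ℂ (O n ⧸ Z) (AlgHom.id ℂ (O n ⧸ Z)).toLinearMap = _
    have : (AlgHom.id ℂ (O n ⧸ Z)).toLinearMap = LinearMap.id := rfl
    rw [this, LinearMap.trace_id]
  rw [← c7, ← c6]
  rfl

end Pool.Agent.Q135.TR
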